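import Mathlib

/-!
# The dual inequality

`T` is an operator on a finite dimensional Hilbert space which satisfies the Moebius inequalities
`‖T w - conj a w‖ ≤ C ‖w - a T w‖` for all `|a| ≤ 1`.
-/

set_option autoImplicit false

open scoped ComplexConjugate InnerProductSpace

namespace Pool.Agent.Helper69.SIM

section iso

variable {E : Type} [NormedAddCommGroup E] [InnerProductSpace ℂ E] [FiniteDimensional ℂ E]
  {H : Type} [NormedAddCommGroup H] [InnerProductSpace ℂ H] [FiniteDimensional ℂ H]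

omit [FiniteDimensional ℂ E] in
/-- two maps with the same norms differ by an isometry of the target -/
theorem exists_isometry (M N : E →L[ℂ] H) (h : ∀ ξ, ‖M ξ‖ = ‖N ξ‖) :
    ∃ W : H →ₗᵢ[ℂ] H, ∀ ξ, W (M ξ) = N ξ := by
  have hker : LinearMap.ker (M : E →ₗ[ℂ] H) ≤ LinearMap.ker (N : E →ₗ[ℂ] H) := by
    intro x hx
    rw [LinearMap.mem_ker] at hx ⊢
    have h1 := h x
    change ‖(M : E →ₗ[ℂ] H) x‖ = ‖(N : E →ₗ[ℂ] H) x‖ at h1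
    rw [hx, norm_zero] at h1
    exact norm_eq_zero.1 h1.symm
  let L0 : LinearMap.range (M : E →ₗ[ℂ] H) →ₗ[ℂ] H :=
    ((LinearMap.ker (M : E →ₗ[ℂ] H)).liftQ (N : E →ₗ[ℂ] H) hker) ∘ₗ
      ((M : E →ₗ[ℂ] H).quotKerEquivRange.symm : _ →ₗ[ℂ] _)
  have hL0 : ∀ ξ, L0 ⟨M ξ, ⟨ξ, rfl⟩⟩ = N ξ := by
    intro ξ
    have h1 : (M : E →ₗ[ℂ] H).quotKerEquivRange.symm ⟨(M : E →ₗ[ℂ] H) ξ, ⟨ξ, rfl⟩⟩ =
        (LinearMap.ker (M : E →ₗ[ℂ] H)).mkQ ξ :=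
      LinearMap.quotKerEquivRange_symm_apply_image _ _ _
    change ((LinearMap.ker (M : E →ₗ[ℂ] H)).liftQ (N : E →ₗ[ℂ] H) hker)
      ((M : E →ₗ[ℂ] H).quotKerEquivRange.symm ⟨(M : E →ₗ[ℂ] H) ξ, ⟨ξ, rfl⟩⟩) = N ξ
    rw [h1]
    rfl
  have hnorm : ∀ x, ‖L0 x‖ = ‖x‖ := by
    rintro ⟨_, ξ, rfl⟩
    have h1 := hL0 ξ
    change ‖L0 ⟨M ξ, ⟨ξ, rfl⟩⟩‖ = ‖M ξ‖
    rw [h1, h ξ]
  let L : LinearMap.range (M : E →ₗ[ℂ] H) →ₗᵢ[ℂ] H := ⟨L0, hnorm⟩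
  refine ⟨L.extend, fun ξ => ?_⟩
  have h1 := LinearIsometry.extend_apply L ⟨M ξ, ⟨ξ, rfl⟩⟩
  change L.extend (M ξ) = _ at h1
  rw [h1]
  exact hL0 ξ

end iso

section sqrt

variable {E : Type} [NormedAddCommGroup E] [InnerProductSpace ℂ E] [FiniteDimensional ℂ E]

/-- square root of a positive operator -/
theorem exists_sqrt (A : E →L[ℂ] E) (hs : IsSelfAdjoint A)
    (h : ∀ ξ, 0 ≤ (⟪ξ, A ξ⟫_ℂ).re) : ∃ R : E →L[ℂ] E, ∀ ξ, ‖R ξ‖ ^ 2 = (⟪ξ, A ξ⟫_ℂ).re := by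
  have hpos : A.IsPositive := by
    rw [ContinuousLinearMap.isPositive_def']
    refine ⟨hs, fun ξ => ?_⟩
    rw [ContinuousLinearMap.reApplyInnerSelf_apply, inner_re_symm]
    exact h ξ
  have h0 : 0 ≤ A := (ContinuousLinearMap.nonneg_iff_isPositive A).2 hpos
  obtain ⟨R, hR⟩ := CStarAlgebra.nonneg_iff_eq_star_mul_self.1 h0
  refine ⟨R, fun ξ => ?_⟩
  rw [hR, ContinuousLinearMap.star_eq_adjoint, mul_apply_eq_comp,
    ContinuousLinearMap.adjoint_inner_right, inner_self_eq_norm_sq_to_K]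
  norm_cast

end sqrt

section step

variable {E : Type} [NormedAddCommGroup E] [InnerProductSpace ℂ E] [FiniteDimensional ℂ E]
  {F : Type} [NormedAddCommGroup F] [InnerProductSpace ℂ F] [FiniteDimensional ℂ F]

open ContinuousLinearMap in
/-- the key factorisation: there is a unit vector `u` of `F`, a number `a` and a vector `c` of `E`
with `|a|^2 + ‖c‖^2 = 1` and `U† u = a S† U† u + R† c` -/
theorem exists_eigen [Nontrivial F] (S R : E →L[ℂ] E) (U : E →L[ℂ] F)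
    (h : ∀ ξ, ‖U ξ‖ ^ 2 ≤ ‖U (S ξ)‖ ^ 2 + ‖R ξ‖ ^ 2) :
    ∃ (u : F) (a : ℂ) (c : E), ‖u‖ = 1 ∧ ‖a‖ ^ 2 + ‖c‖ ^ 2 = 1 ∧
      ∀ ξ, ⟪u, U ξ⟫_ℂ = conj a * ⟪u, U (S ξ)⟫_ℂ + ⟪c, R ξ⟫_ℂ := by
  -- the operator `X`
  set A : E →L[ℂ] E := adjoint (U ∘L S) ∘L (U ∘L S) + adjoint R ∘L R - adjoint U ∘L U with hA
  have hAself : IsSelfAdjoint A := by
    rw [hA]
    refine (IsSelfAdjoint.add ?_ ?_).sub ?_ <;>
    · rw [ContinuousLinearMap.isSelfAdjoint_iff']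
      rw [adjoint_comp, adjoint_adjoint]
  have hAq : ∀ ξ, (⟪ξ, A ξ⟫_ℂ).re = ‖U (S ξ)‖ ^ 2 + ‖R ξ‖ ^ 2 - ‖U ξ‖ ^ 2 := by
    intro ξ
    rw [hA]
    simp only [sub_apply, add_apply, comp_apply, inner_sub_right, inner_add_right,
      adjoint_inner_right, Complex.sub_re, Complex.add_re]
    rw [inner_self_eq_norm_sq_to_K, inner_self_eq_norm_sq_to_K, inner_self_eq_norm_sq_to_K]
    norm_cast
  obtain ⟨X, hX⟩ := exists_sqrt A hAself (fun ξ => by rw [hAq]; linarith [h ξ])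
  -- the two maps
  let M : E →L[ℂ] WithLp 2 (F × E) :=
    (WithLp.prodContinuousLinearEquiv 2 ℂ F E).symm.toContinuousLinearMap ∘L (U.prod X)
  let N : E →L[ℂ] WithLp 2 (F × E) :=
    (WithLp.prodContinuousLinearEquiv 2 ℂ F E).symm.toContinuousLinearMap ∘L ((U ∘L S).prod R)
  have hM : ∀ ξ, M ξ = WithLp.toLp 2 (U ξ, X ξ) := fun ξ => rfl
  have hN : ∀ ξ, N ξ = WithLp.toLp 2 (U (S ξ), R ξ) := fun ξ => rfl
  obtain ⟨W, hW⟩ := exists_isometry M N (by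
    intro ξ
    have h1 : ‖M ξ‖ ^ 2 = ‖N ξ‖ ^ 2 := by
      rw [WithLp.prod_norm_sq_eq_of_L2, WithLp.prod_norm_sq_eq_of_L2, hM, hN]
      change ‖U ξ‖ ^ 2 + ‖X ξ‖ ^ 2 = ‖U (S ξ)‖ ^ 2 + ‖R ξ‖ ^ 2
      rw [hX, hAq]; ring
    exact (pow_left_inj₀ (norm_nonneg _) (norm_nonneg _) two_ne_zero).1 h1)
  -- the compression of `W` to `F`
  let J : F →ₗ[ℂ] WithLp 2 (F × E) :=
    (WithLp.linearEquiv 2 ℂ (F × E)).symm.toLinearMap ∘ₗ LinearMap.inl ℂ F E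
  let K : WithLp 2 (F × E) →ₗ[ℂ] F :=
    LinearMap.fst ℂ F E ∘ₗ (WithLp.linearEquiv 2 ℂ (F × E)).toLinearMap
  let Af : Module.End ℂ F := K ∘ₗ W.toLinearMap ∘ₗ J
  obtain ⟨a, ha⟩ := Module.End.exists_eigenvalue Af
  obtain ⟨u0, hu0⟩ := ha.exists_hasEigenvector
  have hu0' : u0 ≠ 0 := hu0.2
  have hu0n : ‖u0‖ ≠ 0 := norm_ne_zero_iff.2 hu0'
  set u : F := ((‖u0‖ : ℂ)⁻¹) • u0 with hu
  have hun : ‖u‖ = 1 := by
    rw [hu, norm_smul, norm_inv, Complex.norm_real, norm_norm, inv_mul_cancel₀ hu0n]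
  have hAu : Af u = a • u := by
    rw [hu, map_smul, hu0.apply_eq_smul, smul_comm]
  set c : E := (W (WithLp.toLp 2 (u, (0 : E)))).snd with hc
  have hWu : W (WithLp.toLp 2 (u, (0 : E))) = WithLp.toLp 2 (a • u, c) := by
    have h1 : (W (WithLp.toLp 2 (u, (0 : E)))).fst = a • u := hAu
    rw [← h1]
    rfl
  refine ⟨u, a, c, hun, ?_, ?_⟩
  · have h1 : ‖W (WithLp.toLp 2 (u, (0 : E)))‖ ^ 2 = ‖(WithLp.toLp 2 (u, (0 : E)))‖ ^ 2 := by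
      rw [W.norm_map]
    rw [hWu, WithLp.prod_norm_sq_eq_of_L2, WithLp.prod_norm_sq_eq_of_L2] at h1
    change ‖a • u‖ ^ 2 + ‖c‖ ^ 2 = ‖u‖ ^ 2 + ‖(0 : E)‖ ^ 2 at h1
    rw [norm_smul, hun] at h1
    simpa using h1
  · intro ξ
    have h1 : ⟪W (WithLp.toLp 2 (u, (0 : E))), W (M ξ)⟫_ℂ =
        ⟪WithLp.toLp 2 (u, (0 : E)), M ξ⟫_ℂ := W.inner_map_map _ _
    rw [hWu, hW, hM, hN, WithLp.prod_inner_apply, WithLp.prod_inner_apply] at h1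
    change ⟪a • u, U (S ξ)⟫_ℂ + ⟪c, R ξ⟫_ℂ = ⟪u, U ξ⟫_ℂ + ⟪(0 : E), X ξ⟫_ℂ at h1
    rw [inner_zero_left, add_zero, inner_smul_left] at h1
    exact h1.symm

omit [FiniteDimensional ℂ E] in
/-- Parseval for an orthonormal basis -/
theorem parseval {ι : Type} [Fintype ι] (e : OrthonormalBasis ι ℂ E) (x : E) :
    ∑ i, ‖⟪x, e i⟫_ℂ‖ ^ 2 = ‖x‖ ^ 2 := e.sum_sq_norm_inner_left x

/-- pure algebra: the change of the rank one terms -/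
theorem mob_algebra (a p q : ℂ) :
    ‖p - a * q‖ ^ 2 - ‖q - conj a * p‖ ^ 2 = (1 - ‖a‖ ^ 2) * (‖p‖ ^ 2 - ‖q‖ ^ 2) := by
  simp only [← Complex.normSq_eq_norm_sq, Complex.normSq_apply, Complex.sub_re, Complex.sub_im,
    Complex.mul_re, Complex.mul_im, Complex.conj_re, Complex.conj_im]
  ring

open ContinuousLinearMap in
/-- one step of the induction: the new operator `R₁` -/
theorem exists_step [Nontrivial F] {C : ℝ} (hC : 1 ≤ C) (S R : E →L[ℂ] E) (U : E →L[ℂ] F)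
    (hK : ∀ a : ℂ, ‖a‖ ≤ 1 → ∀ w : E,
      ‖adjoint S w - conj a • w‖ ≤ C * ‖w - a • adjoint S w‖)
    (h : ∀ ξ, ‖U ξ‖ ^ 2 ≤ ‖U (S ξ)‖ ^ 2 + ‖R ξ‖ ^ 2) {ι : Type} [Fintype ι]
    (e : OrthonormalBasis ι ℂ E) :
    ∃ (u : F) (R₁ : E →L[ℂ] E), ‖u‖ = 1 ∧
      (∀ ξ, ‖R₁ ξ‖ ^ 2 = ‖R ξ‖ ^ 2 - ‖⟪u, U ξ⟫_ℂ‖ ^ 2 + ‖⟪u, U (S ξ)⟫_ℂ‖ ^ 2) ∧
      ∑ i, ‖R₁ (e i)‖ ^ 2 ≤ C ^ 2 * ∑ i, ‖R (e i)‖ ^ 2 := by
  obtain ⟨u, a, c, hu, hac, hid⟩ := exists_eigen S R U h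
  set v : E := adjoint U u with hv
  have hv1 : ∀ ξ, ⟪v, ξ⟫_ℂ = ⟪u, U ξ⟫_ℂ := fun ξ => by rw [hv, adjoint_inner_left]
  have hv2 : ∀ ξ, ⟪adjoint S v, ξ⟫_ℂ = ⟪u, U (S ξ)⟫_ℂ := fun ξ => by
    rw [adjoint_inner_left, hv1]
  set y : E := v - a • adjoint S v with hy
  have hy1 : ∀ ξ, ⟪y, ξ⟫_ℂ = ⟪c, R ξ⟫_ℂ := fun ξ => by
    rw [hy, inner_sub_left, inner_smul_left, hv1, hv2, hid]; ring
  set t : E := adjoint S v - conj a • v with ht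
  have hsum : 0 ≤ ∑ i, ‖R (e i)‖ ^ 2 := Finset.sum_nonneg fun _ _ => sq_nonneg _
  by_cases ha : ‖a‖ ^ 2 = 1
  · -- `|a| = 1`
    have hc : c = 0 := by
      have : ‖c‖ ^ 2 = 0 := by linarith
      exact norm_eq_zero.1 (pow_eq_zero_iff two_ne_zero |>.1 this)
    refine ⟨u, R, hu, fun ξ => ?_, ?_⟩
    · have h1 := hid ξ
      rw [hc, inner_zero_left, add_zero] at h1
      have h2 : ‖a‖ = 1 := by
        have := norm_nonneg a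
        nlinarith
      rw [h1, norm_mul, RCLike.norm_conj, h2, one_mul]
      ring
    · have : 1 ≤ C ^ 2 := by nlinarith
      nlinarith
  · have hs : 0 < 1 - ‖a‖ ^ 2 := by
      have h1 : ‖a‖ ^ 2 ≤ 1 := by nlinarith [sq_nonneg ‖c‖]
      rcases h1.lt_or_eq with h2 | h2
      · linarith
      · exact absurd h2 ha
    set σ : ℝ := 1 - ‖a‖ ^ 2 with hσ
    have hcσ : ‖c‖ ^ 2 = σ := by linarith
    let R₁ : E →L[ℂ] E := R + (innerSL ℂ (t - y)).smulRight (((σ : ℂ)⁻¹) • c)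
    have hR₁ : ∀ ξ, R₁ ξ = R ξ + (⟪t - y, ξ⟫_ℂ * (σ : ℂ)⁻¹) • c := by
      intro ξ
      simp only [R₁, add_apply, smulRight_apply, innerSL_apply_apply, smul_smul]
    have hσC : (σ : ℂ) ≠ 0 := by exact_mod_cast hs.ne'
    have hquad : ∀ ξ, ‖R₁ ξ‖ ^ 2 = ‖R ξ‖ ^ 2 + (‖⟪t, ξ⟫_ℂ‖ ^ 2 - ‖⟪y, ξ⟫_ℂ‖ ^ 2) / σ := by
      intro ξ
      rw [hR₁, ← hcσ]
      have h1 := @norm_add_sq ℂ E _ _ _ (R ξ) ((⟪t - y, ξ⟫_ℂ * (σ : ℂ)⁻¹) • c)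
      rw [hcσ]
      rw [h1, inner_smul_right, norm_smul, mul_pow, hcσ]
      have h2 : ⟪R ξ, c⟫_ℂ = conj ⟪y, ξ⟫_ℂ := by rw [hy1, inner_conj_symm]
      have h3 : ⟪t - y, ξ⟫_ℂ = ⟪t, ξ⟫_ℂ - ⟪y, ξ⟫_ℂ := inner_sub_left _ _ _
      rw [h2, h3]
      set p := ⟪t, ξ⟫_ℂ
      set q := ⟪y, ξ⟫_ℂ
      have h4 : ‖(p - q) * (σ : ℂ)⁻¹‖ ^ 2 = ‖p - q‖ ^ 2 / σ ^ 2 := by
        rw [norm_mul, norm_inv, Complex.norm_real, Real.norm_of_nonneg hs.le, mul_pow, inv_pow,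
          div_eq_mul_inv]
      have h5 : RCLike.re ((p - q) * (σ : ℂ)⁻¹ * conj q) = ((p - q) * conj q).re / σ := by
        have : (p - q) * (σ : ℂ)⁻¹ * conj q = ((σ⁻¹ : ℝ) : ℂ) * ((p - q) * conj q) := by
          push_cast; ring
        rw [this]
        change (((σ⁻¹ : ℝ) : ℂ) * ((p - q) * conj q)).re = _
        rw [Complex.re_ofReal_mul, div_eq_inv_mul]
      rw [h4, h5]
      have h6 : ‖p - q‖ ^ 2 + 2 * ((p - q) * conj q).re = ‖p‖ ^ 2 - ‖q‖ ^ 2 := by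
        simp only [← Complex.normSq_eq_norm_sq, Complex.normSq_apply, Complex.sub_re,
          Complex.sub_im, Complex.mul_re, Complex.conj_re, Complex.conj_im]
        ring
      rw [← h6]
      field_simp
      ring
    refine ⟨u, R₁, hu, fun ξ => ?_, ?_⟩
    · rw [hquad]
      have h1 : ⟪t, ξ⟫_ℂ = ⟪u, U (S ξ)⟫_ℂ - a * ⟪u, U ξ⟫_ℂ := by
        rw [ht, inner_sub_left, inner_smul_left, hv1, hv2, Complex.conj_conj]
      have h2 : ⟪y, ξ⟫_ℂ = ⟪u, U ξ⟫_ℂ - conj a * ⟪u, U (S ξ)⟫_ℂ := by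
        rw [hy, inner_sub_left, inner_smul_left, hv1, hv2]
      rw [h1, h2, mob_algebra, ← hσ]
      field_simp
      ring
    · have h1 : ∑ i, ‖R₁ (e i)‖ ^ 2 = ∑ i, ‖R (e i)‖ ^ 2 + (‖t‖ ^ 2 - ‖y‖ ^ 2) / σ := by
        simp only [hquad]
        rw [Finset.sum_add_distrib, ← Finset.sum_div, Finset.sum_sub_distrib, parseval e t,
          parseval e y]
      have h2 : ‖t‖ ≤ C * ‖y‖ := by
        refine hK a ?_ v
        nlinarith [norm_nonneg a]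
      have h3 : ‖t‖ ^ 2 ≤ C ^ 2 * ‖y‖ ^ 2 := by
        rw [← mul_pow]
        exact pow_le_pow_left₀ (norm_nonneg _) h2 2
      have h4 : ‖y‖ ^ 2 ≤ σ * ∑ i, ‖R (e i)‖ ^ 2 := by
        rw [← parseval e y, Finset.mul_sum]
        refine Finset.sum_le_sum fun i _ => ?_
        rw [hy1, ← hcσ, ← mul_pow]
        exact pow_le_pow_left₀ (norm_nonneg _) (norm_inner_le_norm _ _) 2
      rw [h1]
      have h5 : (‖t‖ ^ 2 - ‖y‖ ^ 2) / σ ≤ (C ^ 2 - 1) * ∑ i, ‖R (e i)‖ ^ 2 := by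
        rw [div_le_iff₀ hs]
        have h6 : 0 ≤ C ^ 2 - 1 := by nlinarith
        nlinarith [mul_le_mul_of_nonneg_left h4 h6]
      linarith

omit [FiniteDimensional ℂ F] in
/-- the projection to the orthogonal complement of a unit vector -/
theorem norm_proj_sq (u x : F) (hu : ‖u‖ = 1) :
    ‖(ℂ ∙ u)ᗮ.orthogonalProjectionOnto x‖ ^ 2 = ‖x‖ ^ 2 - ‖⟪u, x⟫_ℂ‖ ^ 2 := by
  have h1 := Submodule.norm_sq_eq_add_norm_sq_projection x (ℂ ∙ u)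
  have h2 : ‖(ℂ ∙ u).orthogonalProjectionOnto x‖ = ‖⟪u, x⟫_ℂ‖ := by
    have h3 := Submodule.starProjection_unit_singleton ℂ hu x
    have h4 : ‖(ℂ ∙ u).orthogonalProjectionOnto x‖ = ‖(ℂ ∙ u).starProjection x‖ := rfl
    rw [h4, h3, norm_smul, hu, mul_one]
  rw [h2] at h1
  linarith

open ContinuousLinearMap in
/-- the dual inequality, by induction on the dimension of `F` -/
theorem dual_ineq {C : ℝ} (hC : 1 ≤ C) (S : E →L[ℂ] E)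
    (hK : ∀ a : ℂ, ‖a‖ ≤ 1 → ∀ w : E,
      ‖adjoint S w - conj a • w‖ ≤ C * ‖w - a • adjoint S w‖) {ι : Type} [Fintype ι]
    (e : OrthonormalBasis ι ℂ E) (r : ℕ) :
    ∀ (F : Type) [NormedAddCommGroup F] [InnerProductSpace ℂ F] [FiniteDimensional ℂ F],
      Module.finrank ℂ F = r → ∀ (U : E →L[ℂ] F) (R : E →L[ℂ] E),
      (∀ ξ, ‖U ξ‖ ^ 2 ≤ ‖U (S ξ)‖ ^ 2 + ‖R ξ‖ ^ 2) →
      ∑ i, (‖U (S (e i))‖ ^ 2 + ‖R (e i)‖ ^ 2 - ‖U (e i)‖ ^ 2) ≤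
        (C ^ 2) ^ r * ∑ i, ‖R (e i)‖ ^ 2 := by
  induction r with
  | zero =>
    intro F _ _ _ hF U R _
    have : Subsingleton F := Module.finrank_zero_iff.1 hF
    have hU : ∀ x, U x = 0 := fun x => Subsingleton.elim _ _
    simp [hU]
  | succ r ih =>
    intro F _ _ _ hF U R h
    have : Nontrivial F := Module.nontrivial_of_finrank_pos (R := ℂ) (by omega)
    obtain ⟨u, R₁, hu, hR₁, hsum⟩ := exists_step hC S R U hK h e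
    have hu0 : u ≠ 0 := by
      intro h0
      rw [h0, norm_zero] at hu
      exact zero_ne_one hu
    have : Fact (Module.finrank ℂ F = r + 1) := ⟨hF⟩
    have hfin : Module.finrank ℂ (ℂ ∙ u)ᗮ = r := Submodule.finrank_orthogonal_span_singleton hu0
    set U' : E →L[ℂ] (ℂ ∙ u)ᗮ := (ℂ ∙ u)ᗮ.orthogonalProjectionOnto ∘L U with hU'
    have hU'n : ∀ ξ, ‖U' ξ‖ ^ 2 = ‖U ξ‖ ^ 2 - ‖⟪u, U ξ⟫_ℂ‖ ^ 2 := fun ξ =>
      norm_proj_sq u (U ξ) hu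
    have key := ih _ hfin U' R₁ (fun ξ => by
      rw [hU'n, hU'n, hR₁]
      linarith [h ξ])
    have e1 : ∀ i, ‖U' (S (e i))‖ ^ 2 + ‖R₁ (e i)‖ ^ 2 - ‖U' (e i)‖ ^ 2 =
        ‖U (S (e i))‖ ^ 2 + ‖R (e i)‖ ^ 2 - ‖U (e i)‖ ^ 2 := by
      intro i
      rw [hU'n, hU'n, hR₁]
      ring
    simp only [e1] at key
    refine key.trans ?_
    rw [pow_succ (C ^ 2) r, mul_assoc]
    exact mul_le_mul_of_nonneg_left hsum (by positivity)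

omit [FiniteDimensional ℂ E] in
/-- eigenvalues are in the closed disc -/
theorem eigenvalue_le {C : ℝ} {T : E →L[ℂ] E}
    (hK : ∀ a : ℂ, ‖a‖ ≤ 1 → ∀ w : E, ‖T w - conj a • w‖ ≤ C * ‖w - a • T w‖) {w : E}
    (hw : w ≠ 0) {l : ℂ} (hl : T w = l • w) : ‖l‖ ≤ 1 := by
  by_contra hlt
  push Not at hlt
  have hl0 : l ≠ 0 := by
    rintro rfl
    simp at hlt
    linarith
  have h1 := hK l⁻¹ (by rw [norm_inv]; exact inv_le_one_of_one_le₀ hlt.le) w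
  rw [hl, smul_smul, inv_mul_cancel₀ hl0, one_smul, sub_self, norm_zero, mul_zero] at h1
  have h2 : (l - conj l⁻¹) • w = 0 := by
    rw [sub_smul]
    exact norm_le_zero_iff.1 h1
  have h3 : l - conj l⁻¹ = 0 := (smul_eq_zero.1 h2).resolve_right hw
  have h4 : ‖l‖ = ‖l‖⁻¹ := by
    have h5 : l = conj l⁻¹ := sub_eq_zero.1 h3
    calc ‖l‖ = ‖conj l⁻¹‖ := by rw [← h5]
      _ = ‖l‖⁻¹ := by rw [RCLike.norm_conj, norm_inv]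
  have h5 : ‖l‖ * ‖l‖ = 1 := by
    nth_rewrite 2 [h4]
    exact mul_inv_cancel₀ (norm_ne_zero_iff.2 hl0)
  nlinarith

open ContinuousLinearMap in
/-- the dual inequality with the exponent `n - 1` -/
theorem dual_ineq' {C : ℝ} (hC : 1 ≤ C) (S : E →L[ℂ] E)
    (hK : ∀ a : ℂ, ‖a‖ ≤ 1 → ∀ w : E,
      ‖adjoint S w - conj a • w‖ ≤ C * ‖w - a • adjoint S w‖) {ι : Type} [Fintype ι]
    (e : OrthonormalBasis ι ℂ E) {m : ℕ} (hm : Module.finrank ℂ E = m + 1)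
    (U : E →L[ℂ] E) (R : E →L[ℂ] E) (h : ∀ ξ, ‖U ξ‖ ^ 2 ≤ ‖U (S ξ)‖ ^ 2 + ‖R ξ‖ ^ 2) :
    ∑ i, (‖U (S (e i))‖ ^ 2 + ‖R (e i)‖ ^ 2 - ‖U (e i)‖ ^ 2) ≤
        (C ^ 2) ^ m * ∑ i, ‖R (e i)‖ ^ 2 := by
  have : Nontrivial E := Module.nontrivial_of_finrank_pos (R := ℂ) (by omega)
  obtain ⟨l, hl⟩ := Module.End.exists_eigenvalue (adjoint S : E →ₗ[ℂ] E)
  obtain ⟨w, hw⟩ := hl.exists_hasEigenvector
  have hw0 : w ≠ 0 := hw.2
  have hwl : adjoint S w = l • w := hw.apply_eq_smul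
  have hl1 := eigenvalue_le hK hw0 hwl
  -- a unit vector `s` with `U† s` proportional to `w`
  obtain ⟨s, μ, hs, hsU⟩ : ∃ (s : E) (μ : ℂ), ‖s‖ = 1 ∧ adjoint U s = μ • w := by
    have hex : ∃ (s : E) (μ : ℂ), s ≠ 0 ∧ adjoint U s = μ • w := by
      by_cases hsurj : Function.Surjective (adjoint U : E →ₗ[ℂ] E)
      · obtain ⟨s, hs⟩ := hsurj w
        refine ⟨s, 1, ?_, by rw [one_smul]; exact hs⟩
        rintro rfl
        rw [map_zero] at hs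
        exact hw0 hs.symm
      · have hinj : ¬ Function.Injective (adjoint U : E →ₗ[ℂ] E) := fun h1 =>
          hsurj (LinearMap.injective_iff_surjective.1 h1)
        rw [← LinearMap.ker_eq_bot, Submodule.eq_bot_iff] at hinj
        push Not at hinj
        obtain ⟨s, hs, hs0⟩ := hinj
        exact ⟨s, 0, hs0, by rw [zero_smul]; exact hs⟩
    obtain ⟨s, μ, hs, hsU⟩ := hex
    have hsn : ‖s‖ ≠ 0 := norm_ne_zero_iff.2 hs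
    refine ⟨((‖s‖ : ℂ)⁻¹) • s, (‖s‖ : ℂ)⁻¹ * μ, ?_, ?_⟩
    · rw [norm_smul, norm_inv, Complex.norm_real, norm_norm, inv_mul_cancel₀ hsn]
    · rw [map_smul, hsU, smul_smul]
  have hs0 : s ≠ 0 := by
    rintro rfl
    rw [norm_zero] at hs
    exact zero_ne_one hs
  have h1 : ∀ ξ, ⟪s, U ξ⟫_ℂ = conj μ * ⟪w, ξ⟫_ℂ := fun ξ => by
    rw [← adjoint_inner_left, hsU, inner_smul_left]
  have h2 : ∀ ξ, ⟪s, U (S ξ)⟫_ℂ = conj l * (conj μ * ⟪w, ξ⟫_ℂ) := fun ξ => by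
    rw [h1, ← adjoint_inner_left, hwl, inner_smul_left]; ring
  have h3 : ∀ ξ, ‖⟪s, U (S ξ)⟫_ℂ‖ ^ 2 ≤ ‖⟪s, U ξ⟫_ℂ‖ ^ 2 := by
    intro ξ
    rw [h2, h1, norm_mul, RCLike.norm_conj]
    refine pow_le_pow_left₀ (by positivity) ?_ 2
    exact mul_le_of_le_one_left (norm_nonneg _) hl1
  have : Fact (Module.finrank ℂ E = m + 1) := ⟨hm⟩
  have hfin : Module.finrank ℂ (ℂ ∙ s)ᗮ = m := Submodule.finrank_orthogonal_span_singleton hs0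
  set U' : E →L[ℂ] (ℂ ∙ s)ᗮ := (ℂ ∙ s)ᗮ.orthogonalProjectionOnto ∘L U with hU'
  have hU'n : ∀ ξ, ‖U' ξ‖ ^ 2 = ‖U ξ‖ ^ 2 - ‖⟪s, U ξ⟫_ℂ‖ ^ 2 := fun ξ =>
    norm_proj_sq s (U ξ) hs
  refine le_trans ?_ (dual_ineq hC S hK e m _ hfin U' R (fun ξ => by
      rw [hU'n, hU'n]
      linarith [h ξ, h3 ξ]))
  refine Finset.sum_le_sum fun i _ => ?_
  rw [hU'n, hU'n]
  linarith [h3 (e i)]

end step

end Pool.Agent.Helper69.SIM
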