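import Pool.Agent.Helper69.SIM.Vn

/-!
# Diagonal operators in an orthonormal basis
-/

set_option autoImplicit false

open scoped ComplexConjugate InnerProductSpace
open Polynomial

namespace Pool.Agent.Helper69.SIM

variable {E : Type} [NormedAddCommGroup E] [InnerProductSpace ℂ E]
variable {ι : Type} [Fintype ι]

/-- the diagonal operator with entries `g` in the basis `η` -/
noncomputable def dg (η : OrthonormalBasis ι ℂ E) (g : ι → ℂ) : E →L[ℂ] E :=
  ∑ k, g k • rk (η k)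

theorem dg_apply (η : OrthonormalBasis ι ℂ E) (g : ι → ℂ) (x : E) :
    dg η g x = ∑ k, (g k * ⟪η k, x⟫_ℂ) • η k := by
  unfold dg
  rw [ContinuousLinearMap.sum_apply]
  refine Finset.sum_congr rfl fun k _ => ?_
  change g k • rk (η k) x = _
  rw [rk_apply, smul_smul]

theorem inner_dg (η : OrthonormalBasis ι ℂ E) (g : ι → ℂ) (x : E) (k : ι) :
    ⟪η k, dg η g x⟫_ℂ = g k * ⟪η k, x⟫_ℂ := by
  classical
  rw [dg_apply, inner_sum, Finset.sum_eq_single k]
  · rw [inner_smul_right, inner_self_eq_norm_sq_to_K, η.norm_eq_one]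
    simp
  · intro j _ hj
    rw [inner_smul_right, η.inner_eq_zero (Ne.symm hj), mul_zero]
  · intro h; exact absurd (Finset.mem_univ k) h

theorem ext_basis (η : OrthonormalBasis ι ℂ E) {x y : E}
    (h : ∀ k, ⟪η k, x⟫_ℂ = ⟪η k, y⟫_ℂ) : x = y := by
  rw [← η.sum_repr x, ← η.sum_repr y]
  refine Finset.sum_congr rfl fun k _ => ?_
  rw [η.repr_apply_apply, η.repr_apply_apply, h k]

theorem dg_dg (η : OrthonormalBasis ι ℂ E) (g h : ι → ℂ) (x : E) :
    dg η g (dg η h x) = dg η (fun k => g k * h k) x := by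
  refine ext_basis η fun k => ?_
  rw [inner_dg, inner_dg, inner_dg, mul_assoc]

theorem dg_one (η : OrthonormalBasis ι ℂ E) (x : E) : dg η (fun _ => 1) x = x := by
  refine ext_basis η fun k => ?_
  rw [inner_dg, one_mul]

theorem norm_dg_sq (η : OrthonormalBasis ι ℂ E) (g : ι → ℂ) (x : E) :
    ‖dg η g x‖ ^ 2 = ∑ k, ‖g k‖ ^ 2 * ‖⟪η k, x⟫_ℂ‖ ^ 2 := by
  rw [← η.sum_sq_norm_inner_right]
  refine Finset.sum_congr rfl fun k _ => ?_
  rw [inner_dg, norm_mul, mul_pow]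

theorem norm_dg_le (η : OrthonormalBasis ι ℂ E) (g : ι → ℂ) {c : ℝ} (hc : 0 ≤ c)
    (h : ∀ k, ‖g k‖ ≤ c) : ‖dg η g‖ ≤ c := by
  refine ContinuousLinearMap.opNorm_le_bound _ hc fun x => ?_
  have h1 : ‖dg η g x‖ ^ 2 ≤ (c * ‖x‖) ^ 2 := by
    rw [norm_dg_sq, mul_pow, ← η.sum_sq_norm_inner_right x, Finset.mul_sum]
    refine Finset.sum_le_sum fun k _ => ?_
    exact mul_le_mul_of_nonneg_right (pow_le_pow_left₀ (norm_nonneg _) (h k) 2) (sq_nonneg _)
  exact abs_le_of_sq_le_sq' h1 (by positivity) |>.2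

theorem le_norm_dg (η : OrthonormalBasis ι ℂ E) (g : ι → ℂ) (k : ι) : ‖g k‖ ≤ ‖dg η g‖ := by
  have h1 := (dg η g).le_opNorm (η k)
  rw [η.norm_eq_one, mul_one] at h1
  refine le_trans ?_ h1
  have h2 := norm_inner_le_norm (𝕜 := ℂ) (η k) (dg η g (η k))
  rw [inner_dg, inner_self_eq_norm_sq_to_K, η.norm_eq_one, one_mul] at h2
  simpa using h2

/-- the invertible diagonal operator -/
noncomputable def dgE (η : OrthonormalBasis ι ℂ E) (g : ι → ℂ) (hg : ∀ k, g k ≠ 0) :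
    E ≃L[ℂ] E :=
  ContinuousLinearEquiv.equivOfInverse (dg η g) (dg η fun k => (g k)⁻¹)
    (fun x => by
      rw [dg_dg]
      have : (fun k => (g k)⁻¹ * g k) = fun _ => 1 := by
        funext k
        exact inv_mul_cancel₀ (hg k)
      rw [this, dg_one])
    (fun x => by
      rw [dg_dg]
      have : (fun k => g k * (g k)⁻¹) = fun _ => 1 := by
        funext k
        exact mul_inv_cancel₀ (hg k)
      rw [this, dg_one])

theorem dgE_coe (η : OrthonormalBasis ι ℂ E) (g : ι → ℂ) (hg : ∀ k, g k ≠ 0) :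
    (dgE η g hg : E →L[ℂ] E) = dg η g := rfl

theorem dgE_symm_coe (η : OrthonormalBasis ι ℂ E) (g : ι → ℂ) (hg : ∀ k, g k ≠ 0) :
    ((dgE η g hg).symm : E →L[ℂ] E) = dg η fun k => (g k)⁻¹ := rfl

end Pool.Agent.Helper69.SIM
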