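import Pool.Agent.Helper69.SIM.Core

/-!
# The similarity from the dual inequality
-/

set_option autoImplicit false

open scoped ComplexConjugate InnerProductSpace
open ContinuousLinearMap

namespace Pool.Agent.Helper69.SIM

variable {E : Type} [NormedAddCommGroup E] [InnerProductSpace ℂ E] [FiniteDimensional ℂ E]

/-- the operator `ξ ↦ ⟨x, ξ⟩ x` -/
noncomputable def rk (x : E) : E →L[ℂ] E := (innerSL ℂ x).smulRight x

omit [FiniteDimensional ℂ E] in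
theorem rk_apply (x ξ : E) : rk x ξ = ⟪x, ξ⟫_ℂ • x := by
  simp only [rk, smulRight_apply, innerSL_apply_apply]

theorem rk_selfAdjoint (x : E) : IsSelfAdjoint (rk x) := by
  rw [isSelfAdjoint_iff_isSymmetric]
  intro y z
  change ⟪rk x y, z⟫_ℂ = ⟪y, rk x z⟫_ℂ
  rw [rk_apply, rk_apply, inner_smul_left, inner_smul_right, inner_conj_symm]
  ring

omit [FiniteDimensional ℂ E] in
theorem inner_rk (x ξ : E) : (⟪ξ, rk x ξ⟫_ℂ) = ((‖⟪x, ξ⟫_ℂ‖ ^ 2 : ℝ) : ℂ) := by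
  rw [rk_apply, inner_smul_right, ← inner_conj_symm ξ x, Complex.mul_conj,
    Complex.normSq_eq_norm_sq]

/-- a nonnegative combination of rank one operators -/
noncomputable def comb {ι : Type} [Fintype ι] (x : ι → E) (g : ι → ℝ) : E →L[ℂ] E :=
  ∑ k, ((g k : ℝ) : ℂ) • rk (x k)

theorem comb_selfAdjoint {ι : Type} [Fintype ι] (x : ι → E) (g : ι → ℝ) :
    IsSelfAdjoint (comb x g) := by
  unfold comb
  refine isSelfAdjoint_sum _ fun k _ => ?_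
  refine IsSelfAdjoint.smul ?_ (rk_selfAdjoint _)
  exact Complex.conj_ofReal _

omit [FiniteDimensional ℂ E] in
theorem inner_comb {ι : Type} [Fintype ι] (x : ι → E) (g : ι → ℝ) (ξ : E) :
    (⟪ξ, comb x g ξ⟫_ℂ) = ((∑ k, g k * ‖⟪x k, ξ⟫_ℂ‖ ^ 2 : ℝ) : ℂ) := by
  unfold comb
  rw [sum_apply, inner_sum]
  push_cast
  refine Finset.sum_congr rfl fun k _ => ?_
  change ⟪ξ, ((g k : ℝ) : ℂ) • rk (x k) ξ⟫_ℂ = _
  rw [inner_smul_right, inner_rk]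
  push_cast
  ring

omit [FiniteDimensional ℂ E] in
theorem re_inner_comb {ι : Type} [Fintype ι] (x : ι → E) (g : ι → ℝ) (ξ : E) :
    (⟪ξ, comb x g ξ⟫_ℂ).re = ∑ k, g k * ‖⟪x k, ξ⟫_ℂ‖ ^ 2 := by
  rw [inner_comb, Complex.ofReal_re]

/-- the set of the admissible `G` -/
def GG (E : Type) [NormedAddCommGroup E] [InnerProductSpace ℂ E] [FiniteDimensional ℂ E]
    (κ : ℝ) : Set (E →L[ℂ] E) :=
  {G | IsSelfAdjoint G ∧ ∀ ξ, ‖ξ‖ ^ 2 ≤ (⟪ξ, G ξ⟫_ℂ).re ∧ (⟪ξ, G ξ⟫_ℂ).re ≤ κ * ‖ξ‖ ^ 2}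

omit [FiniteDimensional ℂ E] in
theorem continuous_q (ξ η : E) : Continuous fun G : E →L[ℂ] E => (⟪ξ, G η⟫_ℂ).re := by
  have h1 : Continuous fun G : E →L[ℂ] E => G η := (ContinuousLinearMap.apply ℂ E η).continuous
  exact Complex.continuous_re.comp (continuous_const.inner h1)

theorem GG_closed (κ : ℝ) : IsClosed (GG E κ) := by
  have h1 : GG E κ = {G | IsSelfAdjoint G} ∩ ⋂ ξ : E, ({G | ‖ξ‖ ^ 2 ≤ (⟪ξ, G ξ⟫_ℂ).re} ∩
      {G | (⟪ξ, G ξ⟫_ℂ).re ≤ κ * ‖ξ‖ ^ 2}) := by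
    ext G
    simp only [GG, Set.mem_ofPred_eq, Set.mem_inter_iff, Set.mem_iInter]
  rw [h1]
  refine IsClosed.inter ?_ (isClosed_iInter fun ξ => IsClosed.inter ?_ ?_)
  · exact isClosed_eq continuous_star continuous_id
  · exact isClosed_le continuous_const (continuous_q ξ ξ)
  · exact isClosed_le (continuous_q ξ ξ) continuous_const

theorem GG_bounded {κ : ℝ} (hκ : 0 ≤ κ) {G : E →L[ℂ] E} (hG : G ∈ GG E κ) : ‖G‖ ≤ κ := by
  have hpos : G.IsPositive := by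
    rw [isPositive_def']
    refine ⟨hG.1, fun ξ => ?_⟩
    rw [reApplyInnerSelf_apply, inner_re_symm]
    exact (sq_nonneg _).trans (hG.2 ξ).1
  have h0 : 0 ≤ G := (nonneg_iff_isPositive G).2 hpos
  obtain ⟨R, hR⟩ := CStarAlgebra.nonneg_iff_eq_star_mul_self.1 h0
  have h1 : ∀ ξ, ‖R ξ‖ ^ 2 = (⟪ξ, G ξ⟫_ℂ).re := by
    intro ξ
    rw [hR, star_eq_adjoint, mul_apply_eq_comp, adjoint_inner_right, inner_self_eq_norm_sq_to_K]
    norm_cast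
  have h2 : ‖R‖ ≤ √κ := by
    refine opNorm_le_bound _ (Real.sqrt_nonneg _) fun ξ => ?_
    have h3 : ‖R ξ‖ ^ 2 ≤ (√κ * ‖ξ‖) ^ 2 := by
      rw [h1, mul_pow, Real.sq_sqrt hκ]
      exact (hG.2 ξ).2
    exact abs_le_of_sq_le_sq' h3 (by positivity) |>.2
  rw [hR, CStarRing.norm_star_mul_self]
  calc ‖R‖ * ‖R‖ ≤ √κ * √κ := by gcongr
    _ = κ := Real.mul_self_sqrt hκ

theorem GG_compact {κ : ℝ} (hκ : 0 ≤ κ) : IsCompact (GG E κ) := by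
  have : ProperSpace (E →L[ℂ] E) := FiniteDimensional.proper ℂ (E →L[ℂ] E)
  refine Metric.isCompact_of_isClosed_isBounded (GG_closed κ) ?_
  refine (Metric.isBounded_closedBall (x := (0 : E →L[ℂ] E)) (r := κ)).subset ?_
  intro G hG
  rw [mem_closedBall_zero_iff]
  exact GG_bounded hκ hG

theorem GG_convex (κ : ℝ) : Convex ℝ (GG E κ) := by
  intro G hG H hH a b ha hb hab
  have h1 : ∀ ξ, (⟪ξ, (a • G + b • H) ξ⟫_ℂ).re = a * (⟪ξ, G ξ⟫_ℂ).re + b * (⟪ξ, H ξ⟫_ℂ).re := by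
    intro ξ
    have e1 : (a • G + b • H) ξ = ((a : ℝ) : ℂ) • G ξ + ((b : ℝ) : ℂ) • H ξ := by
      simp
    rw [e1, inner_add_right, inner_smul_right, inner_smul_right, Complex.add_re,
      Complex.re_ofReal_mul, Complex.re_ofReal_mul]
  refine ⟨?_, fun ξ => ?_⟩
  · refine IsSelfAdjoint.add (IsSelfAdjoint.smul ?_ hG.1) (IsSelfAdjoint.smul ?_ hH.1) <;>
    exact star_trivial _
  · rw [h1]
    have hg := hG.2 ξ
    have hh := hH.2 ξ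
    constructor
    · nlinarith [mul_le_mul_of_nonneg_left hg.1 ha, mul_le_mul_of_nonneg_left hh.1 hb]
    · nlinarith [mul_le_mul_of_nonneg_left hg.2 ha, mul_le_mul_of_nonneg_left hh.2 hb]

/-- `G` is admissible for the constraint at `ξ` -/
def con (T : E →L[ℂ] E) (ξ : E) : Set (E →L[ℂ] E) :=
  {G | (⟪T ξ, G (T ξ)⟫_ℂ).re ≤ (⟪ξ, G ξ⟫_ℂ).re}

omit [FiniteDimensional ℂ E] in
theorem con_closed (T : E →L[ℂ] E) (ξ : E) : IsClosed (con T ξ) :=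
  isClosed_le (continuous_q _ _) (continuous_q _ _)

/-- a compact convex set of vectors which meets every half space `∑ w_j x_j ≥ 0` with `w ≥ 0`
contains a nonnegative vector -/
theorem exists_nonneg {ι : Type} [Fintype ι] (s : Set (ι → ℝ)) (hsc : IsCompact s)
    (hsv : Convex ℝ s)
    (h : ∀ w : ι → ℝ, (∀ j, 0 ≤ w j) → ∃ x ∈ s, 0 ≤ ∑ j, x j * w j) :
    ∃ x ∈ s, ∀ j, 0 ≤ x j := by
  classical
  set t : Set (ι → ℝ) := {x | ∀ j, 0 ≤ x j} with ht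
  have htv : Convex ℝ t := by
    intro x hx y hy a b ha hb _ j
    have h1 := hx j
    have h2 := hy j
    simp only [Pi.add_apply, Pi.smul_apply, smul_eq_mul]
    positivity
  have htc : IsClosed t := by
    have : t = ⋂ j, {x : ι → ℝ | 0 ≤ x j} := by
      ext x
      simp only [ht, Set.mem_ofPred_eq, Set.mem_iInter]
    rw [this]
    exact isClosed_iInter fun j => isClosed_le continuous_const (continuous_apply j)
  by_contra hne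
  have hdis : Disjoint s t := by
    rw [Set.disjoint_left]
    intro x hx hxt
    exact hne ⟨x, hx, hxt⟩
  obtain ⟨f, α, β, hf1, hαβ, hf2⟩ := geometric_hahn_banach_compact_closed hsv hsc htv htc hdis
  have hβ : β < 0 := by
    have := hf2 0 (fun j => le_refl _)
    rwa [map_zero] at this
  have hfw : ∀ x : ι → ℝ, f x = ∑ j, x j * f (Pi.single j 1) := by
    intro x
    have h1 := LinearMap.pi_apply_eq_sum_univ (f : (ι → ℝ) →ₗ[ℝ] ℝ) x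
    have h2 : f x = (f : (ι → ℝ) →ₗ[ℝ] ℝ) x := rfl
    rw [h2, h1]
    refine Finset.sum_congr rfl fun j _ => ?_
    rw [smul_eq_mul]
    congr 1
    change f _ = f _
    congr 1
    funext i
    simp [Pi.single_apply, eq_comm]
  have hw0 : ∀ j, 0 ≤ f (Pi.single j 1) := by
    intro j
    by_contra hneg
    push Not at hneg
    have h1 := hf2 (Pi.single j (β / f (Pi.single j 1))) (fun i => by
      by_cases hij : i = j
      · subst hij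
        rw [Pi.single_eq_same]
        exact div_nonneg_of_nonpos hβ.le hneg.le
      · rw [Pi.single_eq_of_ne hij])
    rw [hfw, Finset.sum_eq_single j (fun i _ hij => by rw [Pi.single_eq_of_ne hij, zero_mul])
      (fun h => absurd (Finset.mem_univ j) h), Pi.single_eq_same,
      div_mul_cancel₀ _ hneg.ne] at h1
    exact lt_irrefl _ h1
  obtain ⟨x, hx, hx0⟩ := h (fun j => f (Pi.single j 1)) hw0
  rw [← hfw] at hx0
  exact absurd ((hf1 x hx).trans (hαβ.trans hβ)) (not_lt.2 hx0)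

/-- diagonalisation of the quadratic form of a self-adjoint operator -/
theorem exists_diag {m : ℕ} (hm : Module.finrank ℂ E = m + 1) (D : E →L[ℂ] E)
    (hD : IsSelfAdjoint D) : ∃ (η : OrthonormalBasis (Fin (m + 1)) ℂ E) (d : Fin (m + 1) → ℝ),
      ∀ ξ, (⟪ξ, D ξ⟫_ℂ).re = ∑ k, d k * ‖⟪η k, ξ⟫_ℂ‖ ^ 2 := by
  have hsym : (D : E →ₗ[ℂ] E).IsSymmetric := isSelfAdjoint_iff_isSymmetric.1 hD
  refine ⟨hsym.eigenvectorBasis hm, hsym.eigenvalues hm, fun ξ => ?_⟩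
  generalize hη : hsym.eigenvectorBasis hm = η
  generalize hd : hsym.eigenvalues hm = d
  have hDη : ∀ k, D (η k) = ((d k : ℝ) : ℂ) • η k := fun k => by
    rw [← hη, ← hd]
    exact hsym.apply_eigenvectorBasis hm k
  have h1 : (⟪ξ, D ξ⟫_ℂ) = ∑ k, ⟪ξ, η k⟫_ℂ * ⟪η k, D ξ⟫_ℂ :=
    (η.sum_inner_mul_inner ξ (D ξ)).symm
  have h2 : ∀ k, ⟪ξ, η k⟫_ℂ * ⟪η k, D ξ⟫_ℂ = ((d k * ‖⟪η k, ξ⟫_ℂ‖ ^ 2 : ℝ) : ℂ) := by
    intro k
    have h3 : ⟪η k, D ξ⟫_ℂ = ((d k : ℝ) : ℂ) * ⟪η k, ξ⟫_ℂ := by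
      have h4 : ⟪D (η k), ξ⟫_ℂ = ⟪η k, D ξ⟫_ℂ := hsym (η k) ξ
      rw [← h4, hDη, inner_smul_left, Complex.conj_ofReal]
    rw [h3, ← inner_conj_symm ξ (η k), mul_left_comm, Complex.conj_mul']
    push_cast
    rfl
  rw [h1, Finset.sum_congr rfl fun k _ => h2 k, ← Complex.ofReal_sum, Complex.ofReal_re]

omit [FiniteDimensional ℂ E] in
theorem sum_basis {m : ℕ} (η : OrthonormalBasis (Fin m) ℂ E) (d : Fin m → ℝ) (k : Fin m) :
    ∑ j, d j * ‖⟪η j, η k⟫_ℂ‖ ^ 2 = d k := by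
  rw [Finset.sum_eq_single k]
  · rw [inner_self_eq_norm_sq_to_K, η.norm_eq_one]
    norm_num
  · intro j _ hjk
    rw [η.inner_eq_zero hjk]
    norm_num
  · intro h; exact absurd (Finset.mem_univ k) h

/-- an admissible `G` for one nonnegative combination of the constraints -/
theorem exists_weighted {C : ℝ} (hC : 1 ≤ C) (T : E →L[ℂ] E)
    (hK : ∀ a : ℂ, ‖a‖ ≤ 1 → ∀ w : E, ‖T w - conj a • w‖ ≤ C * ‖w - a • T w‖) {m : ℕ}
    (hm : Module.finrank ℂ E = m + 1) {ι : Type} [Fintype ι] (x : ι → E) (w : ι → ℝ)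
    (hw0 : ∀ j, 0 ≤ w j) : ∃ G ∈ GG E ((C ^ 2) ^ m),
      0 ≤ ∑ j, ((⟪x j, G (x j)⟫_ℂ).re - (⟪T (x j), G (T (x j))⟫_ℂ).re) * w j := by
  generalize hκ : (C ^ 2) ^ m = κ
  have hκ1 : 1 ≤ κ := by rw [← hκ]; exact one_le_pow₀ (one_le_pow₀ hC)
  -- the operator `P`
  obtain ⟨U, hU⟩ := exists_sqrt (comb x w) (comb_selfAdjoint _ _)
    (fun ξ => by
      rw [re_inner_comb]
      exact Finset.sum_nonneg fun j _ => mul_nonneg (hw0 j) (sq_nonneg _))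
  have hU' : ∀ ξ, ‖U ξ‖ ^ 2 = ∑ j, w j * ‖⟪x j, ξ⟫_ℂ‖ ^ 2 := fun ξ => by
    rw [hU, re_inner_comb]
  obtain ⟨S, hST⟩ : ∃ S : E →L[ℂ] E, adjoint S = T := ⟨adjoint T, adjoint_adjoint T⟩
  have hTS : ∀ y z, ⟪T y, z⟫_ℂ = ⟪y, S z⟫_ℂ := fun y z => by
    rw [← hST, adjoint_inner_left]
  -- the operator `D` and its eigenbasis
  have hDself : IsSelfAdjoint (adjoint U ∘L U - adjoint (U ∘L S) ∘L (U ∘L S)) := by
    refine IsSelfAdjoint.sub ?_ ?_ <;>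
    · rw [isSelfAdjoint_iff', adjoint_comp, adjoint_adjoint]
  have hDq : ∀ ξ, (⟪ξ, (adjoint U ∘L U - adjoint (U ∘L S) ∘L (U ∘L S)) ξ⟫_ℂ).re =
      ‖U ξ‖ ^ 2 - ‖U (S ξ)‖ ^ 2 := by
    intro ξ
    simp only [sub_apply, comp_apply, inner_sub_right, adjoint_inner_right, Complex.sub_re]
    rw [inner_self_eq_norm_sq_to_K, inner_self_eq_norm_sq_to_K]
    norm_cast
  obtain ⟨η, d, hηd⟩ := exists_diag hm _ hDself
  have hDsum : ∀ ξ, ‖U ξ‖ ^ 2 - ‖U (S ξ)‖ ^ 2 = ∑ k, d k * ‖⟪η k, ξ⟫_ℂ‖ ^ 2 := fun ξ => by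
    rw [← hDq, hηd]
  have hdη : ∀ k, ‖U (η k)‖ ^ 2 - ‖U (S (η k))‖ ^ 2 = d k := by
    intro k
    rw [hDsum, sum_basis]
  -- the operator `R`
  obtain ⟨R, hR⟩ := exists_sqrt (comb (fun k => η k) (fun k => max (d k) 0))
    (comb_selfAdjoint _ _) (fun ξ => by
      rw [re_inner_comb]
      exact Finset.sum_nonneg fun j _ => mul_nonneg (le_max_right _ _) (sq_nonneg _))
  have hR' : ∀ ξ, ‖R ξ‖ ^ 2 = ∑ k, max (d k) 0 * ‖⟪η k, ξ⟫_ℂ‖ ^ 2 := fun ξ => by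
    rw [hR, re_inner_comb]
  have hRη : ∀ k, ‖R (η k)‖ ^ 2 = max (d k) 0 := by
    intro k
    rw [hR', sum_basis η (fun k => max (d k) 0)]
  have key := dual_ineq' hC S (by rw [hST]; exact hK) η hm U R (fun ξ => by
    have h1 := hDsum ξ
    have h2 : ∑ k, d k * ‖⟪η k, ξ⟫_ℂ‖ ^ 2 ≤ ∑ k, max (d k) 0 * ‖⟪η k, ξ⟫_ℂ‖ ^ 2 :=
      Finset.sum_le_sum fun k _ => mul_le_mul_of_nonneg_right (le_max_left _ _) (sq_nonneg _)
    rw [hR']
    linarith)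
  have e1 : ∀ k, ‖U (S (η k))‖ ^ 2 + ‖R (η k)‖ ^ 2 - ‖U (η k)‖ ^ 2 = max (d k) 0 - d k := by
    intro k
    rw [hRη, ← hdη k]
    ring
  rw [Finset.sum_congr rfl fun k _ => e1 k, Finset.sum_congr rfl fun k _ => hRη k, hκ] at key
  -- the operator `G`
  set g : Fin (m + 1) → ℝ := fun k => if 0 < d k then κ else 1 with hg
  have hg1 : ∀ k, 1 ≤ g k ∧ g k ≤ κ := by
    intro k
    simp only [hg]
    split_ifs
    · exact ⟨hκ1, le_refl _⟩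
    · exact ⟨le_refl _, hκ1⟩
  have hpar : ∀ ξ, ∑ k, ‖⟪η k, ξ⟫_ℂ‖ ^ 2 = ‖ξ‖ ^ 2 := fun ξ => η.sum_sq_norm_inner_right ξ
  have hG : comb (fun k => η k) g ∈ GG E κ := by
    refine ⟨comb_selfAdjoint _ _, fun ξ => ?_⟩
    rw [re_inner_comb, ← hpar ξ, Finset.mul_sum]
    constructor
    · refine Finset.sum_le_sum fun k _ => ?_
      exact le_mul_of_one_le_left (sq_nonneg _) (hg1 k).1
    · refine Finset.sum_le_sum fun k _ => ?_
      exact mul_le_mul_of_nonneg_right (hg1 k).2 (sq_nonneg _)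
  refine ⟨_, hG, ?_⟩
  have e3 : ∀ j, ((⟪x j, comb (fun k => η k) g (x j)⟫_ℂ).re -
      (⟪T (x j), comb (fun k => η k) g (T (x j))⟫_ℂ).re) * w j =
        ∑ k, g k * (w j * ‖⟪x j, η k⟫_ℂ‖ ^ 2 - w j * ‖⟪x j, S (η k)⟫_ℂ‖ ^ 2) := by
    intro j
    rw [re_inner_comb, re_inner_comb, ← Finset.sum_sub_distrib, Finset.sum_mul]
    refine Finset.sum_congr rfl fun k _ => ?_
    have e4 : ‖⟪η k, x j⟫_ℂ‖ = ‖⟪x j, η k⟫_ℂ‖ := norm_inner_symm _ _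
    have e5 : ‖⟪η k, T (x j)⟫_ℂ‖ = ‖⟪x j, S (η k)⟫_ℂ‖ := by
      rw [norm_inner_symm, hTS]
    rw [e4, e5]
    ring
  rw [Finset.sum_congr rfl fun j _ => e3 j, Finset.sum_comm]
  have e6 : ∀ k, ∑ j, g k * (w j * ‖⟪x j, η k⟫_ℂ‖ ^ 2 - w j * ‖⟪x j, S (η k)⟫_ℂ‖ ^ 2) =
      κ * max (d k) 0 - (max (d k) 0 - d k) := by
    intro k
    rw [← Finset.mul_sum, Finset.sum_sub_distrib, ← hU', ← hU', hdη]
    simp only [hg]
    split_ifs with h1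
    · rw [max_eq_left h1.le]; ring
    · rw [max_eq_right (not_lt.1 h1)]; ring
  rw [Finset.sum_congr rfl fun k _ => e6 k, Finset.sum_sub_distrib, ← Finset.mul_sum]
  linarith

/-- the linear map of the constraints -/
noncomputable def conMap (T : E →L[ℂ] E) (u : Finset E) : (E →L[ℂ] E) →ₗ[ℝ] (u → ℝ) where
  toFun := fun G ξ => (⟪(ξ : E), G ξ⟫_ℂ).re - (⟪T ξ, G (T ξ)⟫_ℂ).re
  map_add' := fun G H => by
    funext ξ
    simp only [add_apply, inner_add_right, Complex.add_re, Pi.add_apply]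
    ring
  map_smul' := fun c G => by
    funext ξ
    have e1 : ∀ x : E, (c • G) x = ((c : ℝ) : ℂ) • G x := fun x => by simp
    simp only [e1, inner_smul_right, Complex.re_ofReal_mul, RingHom.id_apply, Pi.smul_apply,
      smul_eq_mul]
    ring

omit [FiniteDimensional ℂ E] in
theorem conMap_cont (T : E →L[ℂ] E) (u : Finset E) : Continuous (conMap T u) := by
  rw [continuous_pi_iff]
  intro ξ
  exact (continuous_q _ _).sub (continuous_q _ _)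

theorem conMap_image_compact (T : E →L[ℂ] E) (u : Finset E) (κ : ℝ) (hκ0 : 0 ≤ κ) :
    IsCompact (conMap T u '' GG E κ) := by
  exact (GG_compact hκ0).image (conMap_cont T u)

theorem conMap_image_convex (T : E →L[ℂ] E) (u : Finset E) (κ : ℝ) :
    Convex ℝ (conMap T u '' GG E κ) := by
  rintro _ ⟨G, hG, rfl⟩ _ ⟨H, hH, rfl⟩ a b ha hb hab
  refine ⟨a • G + b • H, GG_convex κ hG hH ha hb hab, ?_⟩
  rw [map_add]
  congr 1
  · exact (conMap T u).map_smul a G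
  · exact (conMap T u).map_smul b H

theorem conMap_weighted {C : ℝ} (hC : 1 ≤ C) (T : E →L[ℂ] E)
    (hK : ∀ a : ℂ, ‖a‖ ≤ 1 → ∀ w : E, ‖T w - conj a • w‖ ≤ C * ‖w - a • T w‖) {m : ℕ}
    (hm : Module.finrank ℂ E = m + 1) (u : Finset E) (w : u → ℝ) (hw : ∀ j, 0 ≤ w j) :
    ∃ x ∈ conMap T u '' GG E ((C ^ 2) ^ m), 0 ≤ ∑ j, x j * w j := by
  obtain ⟨G, hG, h0⟩ := exists_weighted hC T hK hm (fun j : u => (j : E)) w hw
  exact ⟨conMap T u G, ⟨G, hG, rfl⟩, h0⟩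

/-- finitely many constraints can be satisfied together -/
theorem con_finite {C : ℝ} (hC : 1 ≤ C) (T : E →L[ℂ] E)
    (hK : ∀ a : ℂ, ‖a‖ ≤ 1 → ∀ w : E, ‖T w - conj a • w‖ ≤ C * ‖w - a • T w‖) {m : ℕ}
    (hm : Module.finrank ℂ E = m + 1) (u : Finset E) :
    (GG E ((C ^ 2) ^ m) ∩ ⋂ ξ ∈ u, con T ξ).Nonempty := by
  have hκ0 : (0 : ℝ) ≤ (C ^ 2) ^ m := by positivity
  obtain ⟨y, hyim, hy⟩ := exists_nonneg (conMap T u '' GG E ((C ^ 2) ^ m))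
    (conMap_image_compact T u _ hκ0) (conMap_image_convex T u _)
    (conMap_weighted hC T hK hm u)
  obtain ⟨G, hG, hGy⟩ := hyim
  refine ⟨G, hG, ?_⟩
  rw [Set.mem_iInter₂]
  intro ξ hξ
  have h2 := hy ⟨ξ, hξ⟩
  rw [← hGy] at h2
  have h1 : 0 ≤ (⟪ξ, G ξ⟫_ℂ).re - (⟪T ξ, G (T ξ)⟫_ℂ).re := h2
  change (⟪T ξ, G (T ξ)⟫_ℂ).re ≤ (⟪ξ, G ξ⟫_ℂ).re
  linarith

/-- the metric in which `T` is a contraction -/
theorem exists_metric {C : ℝ} (hC : 1 ≤ C) (T : E →L[ℂ] E)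
    (hK : ∀ a : ℂ, ‖a‖ ≤ 1 → ∀ w : E, ‖T w - conj a • w‖ ≤ C * ‖w - a • T w‖) {m : ℕ}
    (hm : Module.finrank ℂ E = m + 1) :
    ∃ R : E →L[ℂ] E, (∀ ξ, ‖ξ‖ ≤ ‖R ξ‖) ∧ (∀ ξ, ‖R ξ‖ ≤ C ^ m * ‖ξ‖) ∧
      ∀ ξ, ‖R (T ξ)‖ ≤ ‖R ξ‖ := by
  have hκ0 : (0 : ℝ) ≤ (C ^ 2) ^ m := by positivity
  obtain ⟨G, hG, hcon⟩ := (GG_compact hκ0).inter_iInter_nonempty (con T) (con_closed T)
    (con_finite hC T hK hm)
  rw [Set.mem_iInter] at hcon
  obtain ⟨R, hR⟩ := exists_sqrt G hG.1 (fun ξ => (sq_nonneg _).trans (hG.2 ξ).1)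
  refine ⟨R, fun ξ => ?_, fun ξ => ?_, fun ξ => ?_⟩
  · have h1 : ‖ξ‖ ^ 2 ≤ ‖R ξ‖ ^ 2 := by rw [hR]; exact (hG.2 ξ).1
    exact abs_le_of_sq_le_sq' h1 (norm_nonneg _) |>.2
  · have h1 : ‖R ξ‖ ^ 2 ≤ (C ^ m * ‖ξ‖) ^ 2 := by
      rw [hR, mul_pow, ← pow_mul, mul_comm m 2, pow_mul]
      exact (hG.2 ξ).2
    exact abs_le_of_sq_le_sq' h1 (by positivity) |>.2
  · have h1 : ‖R (T ξ)‖ ^ 2 ≤ ‖R ξ‖ ^ 2 := by rw [hR, hR]; exact hcon ξ
    exact abs_le_of_sq_le_sq' h1 (norm_nonneg _) |>.2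

end Pool.Agent.Helper69.SIM
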