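import Pool.Agent.Helper69.SIM.Interp
import Pool.Agent.Helper89.PB.Final

/-!
# Real analysis for the interpolation theorem
-/

set_option autoImplicit false

open Filter Topology

namespace Pool.Agent.Helper69.SIM

/-- the function `log (n + 1) / log (2 + log (n + 1))` dominates every power of `log log` -/
theorem growth_aux {c₀ : ℝ} (hc₀ : 0 < c₀) : ∃ c : ℝ, 0 < c ∧ ∀ n : ℕ, 2 ≤ n →
    c * Real.log (Real.log (n + 2)) ≤
      max 1 (Real.log (c₀ * (Real.log (n + 1) / Real.log (2 + Real.log (n + 1))))) := by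
  set a : ℝ := max 0 (-Real.log (c₀ / 4)) with ha
  have ha0 : 0 ≤ a := le_max_left _ _
  have ha1 : -a ≤ Real.log (c₀ / 4) := by
    have := le_max_right 0 (-Real.log (c₀ / 4))
    rw [← ha] at this
    linarith
  refine ⟨1 / (4 * a + 8), by positivity, fun n hn => ?_⟩
  have hn2 : (2 : ℝ) ≤ n := by exact_mod_cast hn
  set v : ℝ := Real.log (n + 1) with hv
  have hv1 : 1 < v := by
    rw [hv, Real.lt_log_iff_exp_lt (by linarith)]
    have := Real.exp_one_lt_d9
    linarith
  have hv0 : 0 < v := by linarith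
  have hu1 : 1 < Real.log (n + 2) := by
    rw [Real.lt_log_iff_exp_lt (by linarith)]
    have := Real.exp_one_lt_d9
    linarith
  have hu : Real.log (n + 2) ≤ 2 * v := by
    rw [hv, ← Real.log_rpow (by linarith)]
    refine Real.log_le_log (by linarith) ?_
    norm_num
    nlinarith
  have hy : 0 < Real.log v := Real.log_pos hv1
  have hll : Real.log (Real.log (n + 2)) ≤ 1 + Real.log v := by
    calc Real.log (Real.log (n + 2)) ≤ Real.log (2 * v) := Real.log_le_log (by linarith) hu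
      _ = Real.log 2 + Real.log v := Real.log_mul two_ne_zero hv0.ne'
      _ ≤ 1 + Real.log v := by
        have := Real.log_two_lt_d9
        linarith
  have hll0 : 0 < Real.log (Real.log (n + 2)) := Real.log_pos hu1
  have hden : Real.log (2 + v) ≤ 4 * √v := by
    have h1 : Real.log (2 + v) = 2 * Real.log (√(2 + v)) := by
      rw [Real.log_sqrt (by linarith)]
      ring
    have h2 : Real.log (√(2 + v)) ≤ √(2 + v) := (Real.log_le_self (Real.sqrt_nonneg _))
    have h3 : √(2 + v) ≤ 2 * √v := by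
      rw [show 2 * √v = √(4 * v) by
        rw [Real.sqrt_mul (by norm_num), show (4 : ℝ) = 2 ^ 2 by norm_num,
          Real.sqrt_sq (by norm_num)]]
      exact Real.sqrt_le_sqrt (by linarith)
    rw [h1]
    linarith
  have hden0 : 0 < Real.log (2 + v) := Real.log_pos (by linarith)
  have hrate : √v / 4 ≤ v / Real.log (2 + v) := by
    rw [div_le_div_iff₀ (by norm_num) hden0]
    have h1 : √v * √v = v := Real.mul_self_sqrt hv0.le
    nlinarith [mul_le_mul_of_nonneg_left hden (Real.sqrt_nonneg v)]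
  have hlog : Real.log (c₀ / 4) + Real.log v / 2 ≤ Real.log (c₀ * (v / Real.log (2 + v))) := by
    rw [← Real.log_sqrt hv0.le, ← Real.log_mul (by positivity) (Real.sqrt_pos.2 hv0).ne']
    refine Real.log_le_log (by have := Real.sqrt_pos.2 hv0; positivity) ?_
    calc c₀ / 4 * √v = c₀ * (√v / 4) := by ring
      _ ≤ c₀ * (v / Real.log (2 + v)) := by gcongr
  rcases le_total (Real.log v) (4 * a + 4) with h | h
  · refine le_trans ?_ (le_max_left _ _)
    rw [one_div, inv_mul_le_iff₀ (by positivity)]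
    linarith
  · refine le_trans ?_ (le_max_right _ _)
    refine le_trans ?_ hlog
    have h5 : 1 / (4 * a + 8) * Real.log (Real.log (n + 2)) ≤ 1 / 4 * (1 + Real.log v) := by
      refine mul_le_mul ?_ hll hll0.le (by norm_num)
      exact one_div_le_one_div_of_le (by norm_num) (by linarith)
    linarith

/-- `log₂ (1 + ε) ≥ ε` on `[0, 1]` -/
theorem le_logb_two {ε : ℝ} (h0 : 0 < ε) (h1 : ε ≤ 1) : ε ≤ Real.logb 2 (1 + ε) := by
  have hconc : ConcaveOn ℝ (Set.Ioi 0) Real.log := strictConcaveOn_log_Ioi.concaveOn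
  have h2 : (1 - ε) • Real.log 1 + ε • Real.log 2 ≤ Real.log ((1 - ε) • 1 + ε • 2) :=
    hconc.2 (Set.mem_Ioi.2 one_pos) (Set.mem_Ioi.2 two_pos) (sub_nonneg.2 h1) h0.le (by ring)
  simp only [smul_eq_mul, Real.log_one, mul_zero, zero_add] at h2
  rw [Real.logb, le_div_iff₀ (Real.log_pos one_lt_two)]
  refine h2.trans (le_of_eq ?_)
  congr 1
  ring

/-- the limit of an antitone exponent -/
theorem exists_limit (s : ℝ → ℝ) (hs1 : ∀ ε, 0 < ε → 1 ≤ s ε)
    (hs : ∀ ε, 0 < ε → ∀ t : ℝ, 0 < t → t ≤ 1 → (s ε) ^ t ≤ s ((1 + ε) ^ t - 1)) (N : ℝ)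
    (hN : ∀ ε, 0 < ε → s ε ≤ (1 + ε) ^ N) :
    ∃ L : ℝ, L ≤ N ∧ (∀ ε, 0 < ε → s ε ≤ (1 + ε) ^ L) ∧
      Tendsto (fun ε => (s ε - 1) / ε) (𝓝[>] 0) (𝓝 L) := by
  set φ : ℝ → ℝ := fun ε => Real.log (s ε) / Real.log (1 + ε) with hφ
  have hlog : ∀ ε, 0 < ε → 0 < Real.log (1 + ε) := fun ε hε => Real.log_pos (by linarith)
  have hanti : ∀ ε₁ ε₂, 0 < ε₁ → ε₁ ≤ ε₂ → φ ε₂ ≤ φ ε₁ := by
    intro ε₁ ε₂ h1 h2
    have l1 := hlog ε₁ h1
    have l2 := hlog ε₂ (by linarith)
    have l12 : Real.log (1 + ε₁) ≤ Real.log (1 + ε₂) := Real.log_le_log (by linarith) (by linarith)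
    have ht := hs ε₂ (by linarith) (Real.log (1 + ε₁) / Real.log (1 + ε₂)) (by positivity)
      ((div_le_one l2).2 l12)
    have e1 : (1 + ε₂) ^ (Real.log (1 + ε₁) / Real.log (1 + ε₂)) = 1 + ε₁ := by
      rw [Real.rpow_def_of_pos (by linarith), mul_div_cancel₀ _ l2.ne',
        Real.exp_log (by linarith)]
    rw [e1, add_sub_cancel_left] at ht
    have h3 := Real.log_le_log (Real.rpow_pos_of_pos (by linarith [hs1 ε₂ (by linarith)]) _) ht
    rw [Real.log_rpow (by linarith [hs1 ε₂ (by linarith)])] at h3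
    simp only [hφ]
    rw [div_le_div_iff₀ l2 l1]
    rw [div_mul_eq_mul_div, div_le_iff₀ l2] at h3
    linarith
  have hbd : ∀ ε, 0 < ε → φ ε ≤ N := by
    intro ε hε
    simp only [hφ]
    rw [div_le_iff₀ (hlog ε hε), ← Real.log_rpow (by linarith)]
    exact Real.log_le_log (by linarith [hs1 ε hε]) (hN ε hε)
  set L : ℝ := sSup (φ '' Set.Ioi 0) with hL
  have hBdd : BddAbove (φ '' Set.Ioi 0) := ⟨N, by rintro _ ⟨ε, hε, rfl⟩; exact hbd ε hε⟩
  have hle : ∀ ε, 0 < ε → φ ε ≤ L := fun ε hε => le_csSup hBdd ⟨ε, hε, rfl⟩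
  have hne : (φ '' Set.Ioi 0).Nonempty := ⟨φ 1, 1, by simp, rfl⟩
  have hφL : Tendsto φ (𝓝[>] 0) (𝓝 L) := by
    rw [tendsto_order]
    constructor
    · intro a ha
      obtain ⟨_, ⟨ε₀, hε₀, rfl⟩, h⟩ := exists_lt_of_lt_csSup hne ha
      filter_upwards [Ioc_mem_nhdsGT (show (0 : ℝ) < ε₀ from hε₀)] with ε hε
      exact h.trans_le (hanti ε ε₀ hε.1 hε.2)
    · intro a ha
      filter_upwards [self_mem_nhdsWithin] with ε hε
      exact (hle ε hε).trans_lt ha
  have hs_eq : ∀ ε, 0 < ε → s ε = (1 + ε) ^ (φ ε) := by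
    intro ε hε
    have := hlog ε hε
    rw [Real.rpow_def_of_pos (by linarith)]
    simp only [hφ]
    rw [mul_div_cancel₀ _ this.ne', Real.exp_log (by linarith [hs1 ε hε])]
  have hupper : ∀ ε, 0 < ε → s ε ≤ (1 + ε) ^ L := by
    intro ε hε
    rw [hs_eq ε hε]
    exact Real.rpow_le_rpow_of_exponent_le (by linarith) (hle ε hε)
  refine ⟨L, csSup_le hne (by rintro _ ⟨ε, hε, rfl⟩; exact hbd ε hε), hupper, ?_⟩
  -- squeeze
  have hd1 : Tendsto (fun ε : ℝ => ((1 + ε) ^ L - 1) / ε) (𝓝[>] 0) (𝓝 L) := by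
    have h1 : HasDerivAt (fun x : ℝ => (1 + x) ^ L) L 0 := by
      have h2 : HasDerivAt (fun x : ℝ => 1 + x) 1 0 := by
        simpa using (hasDerivAt_id (0 : ℝ)).const_add 1
      have h3 := h2.rpow_const (p := L) (Or.inl (by norm_num))
      simpa using h3
    have h2 := h1.tendsto_slope_zero_right
    refine h2.congr' ?_
    filter_upwards with ε
    simp only [zero_add, add_zero, Real.one_rpow, smul_eq_mul]
    rw [inv_mul_eq_div]
  have hd2 : Tendsto (fun ε : ℝ => Real.log (1 + ε) / ε) (𝓝[>] 0) (𝓝 1) := by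
    have h1 : HasDerivAt (fun x : ℝ => Real.log (1 + x)) 1 0 := by
      have h2 : HasDerivAt (fun x : ℝ => 1 + x) 1 0 := by
        simpa using (hasDerivAt_id (0 : ℝ)).const_add 1
      have h3 := h2.log (by norm_num)
      simpa using h3
    have h2 := h1.tendsto_slope_zero_right
    refine h2.congr' ?_
    filter_upwards with ε
    simp only [zero_add, add_zero, Real.log_one, sub_zero, smul_eq_mul]
    rw [inv_mul_eq_div]
  have hlow : Tendsto (fun ε : ℝ => φ ε * (Real.log (1 + ε) / ε)) (𝓝[>] 0) (𝓝 L) := by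
    have := hφL.mul hd2
    rwa [mul_one] at this
  refine tendsto_of_tendsto_of_tendsto_of_le_of_le' hlow hd1 ?_ ?_
  · filter_upwards [self_mem_nhdsWithin] with ε hε
    have hε' : (0 : ℝ) < ε := hε
    have h1 := hlog ε hε'
    have e2 : φ ε * (Real.log (1 + ε) / ε) = Real.log (s ε) / ε := by
      simp only [hφ]
      field_simp
    rw [e2]
    refine div_le_div_of_nonneg_right ?_ hε'.le
    exact Real.log_le_sub_one_of_pos (by linarith [hs1 ε hε'])
  · filter_upwards [self_mem_nhdsWithin] with ε hε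
    have hε' : (0 : ℝ) < ε := hε
    exact div_le_div_of_nonneg_right (by linarith [hupper ε hε']) hε'.le

end Pool.Agent.Helper69.SIM
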