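import Pool.Agent.Helper69.SIM.Lower
import Mathlib.Analysis.Complex.Hadamard

/-!
# Interpolation of the similarity
-/

set_option autoImplicit false

open scoped ComplexConjugate InnerProductSpace
open Polynomial

namespace Pool.Agent.Helper69.SIM

section general

variable {E : Type} [NormedAddCommGroup E] [InnerProductSpace ℂ E]
variable {ι : Type} [Fintype ι]

/-- the complex power of the positive diagonal operator `exp l` -/
noncomputable def dp (η : OrthonormalBasis ι ℂ E) (l : ι → ℝ) (z : ℂ) : E →L[ℂ] E :=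
  dg η fun k => Complex.exp (z * l k)

theorem dp_differentiable (η : OrthonormalBasis ι ℂ E) (l : ι → ℝ) (c : ℂ) :
    Differentiable ℂ fun z => dp η l (c * z) := by
  unfold dp dg
  refine Differentiable.fun_sum fun k _ => ?_
  exact Differentiable.smul_const (by fun_prop) _

theorem norm_exp_entry (l : ℝ) (z : ℂ) : ‖Complex.exp (z * l)‖ = Real.exp (z.re * l) := by
  rw [Complex.norm_exp, Complex.re_mul_ofReal]

theorem dp_isometry (η : OrthonormalBasis ι ℂ E) (l : ι → ℝ) (z : ℂ) (hz : z.re = 0) :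
    ‖dp η l z‖ ≤ 1 := by
  refine norm_dg_le η _ zero_le_one fun k => ?_
  rw [norm_exp_entry, hz, zero_mul, Real.exp_zero]

theorem dp_add (η : OrthonormalBasis ι ℂ E) (l : ι → ℝ) (z w : ℂ) :
    dp η l (z + w) = dp η l z ∘L dp η l w := by
  ext1 x
  change dp η l (z + w) x = dp η l z (dp η l w x)
  unfold dp
  rw [dg_dg]
  congr 2
  funext k
  rw [add_mul, Complex.exp_add]

theorem dp_zero (η : OrthonormalBasis ι ℂ E) (l : ι → ℝ) : dp η l 0 = 1 := by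
  ext1 x
  change dp η l 0 x = x
  unfold dp
  simp only [zero_mul, Complex.exp_zero]
  exact dg_one η x

/-- the entries of the real powers are bounded -/
theorem norm_dp_le (η : OrthonormalBasis ι ℂ E) (l : ι → ℝ) (z : ℂ) (hz : |z.re| ≤ 1) :
    ‖dp η l z‖ ≤ Real.exp (∑ k, |l k|) := by
  refine norm_dg_le η _ (Real.exp_pos _).le fun k => ?_
  rw [norm_exp_entry, Real.exp_le_exp]
  calc z.re * l k ≤ |z.re * l k| := le_abs_self _
    _ = |z.re| * |l k| := abs_mul _ _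
    _ ≤ 1 * |l k| := mul_le_mul_of_nonneg_right hz (abs_nonneg _)
    _ = |l k| := one_mul _
    _ ≤ ∑ k, |l k| := Finset.single_le_sum (f := fun k => |l k|) (fun _ _ => abs_nonneg _)
        (Finset.mem_univ k)

theorem norm_comp3_le (P Q R : E →L[ℂ] E) {p q r : ℝ} (hP : ‖P‖ ≤ p) (hQ : ‖Q‖ ≤ q)
    (hR : ‖R‖ ≤ r) : ‖P ∘L Q ∘L R‖ ≤ p * q * r := by
  have hp : 0 ≤ p := (norm_nonneg _).trans hP
  have hq : 0 ≤ q := (norm_nonneg _).trans hQ
  calc ‖P ∘L Q ∘L R‖ ≤ ‖P‖ * ‖Q ∘L R‖ := ContinuousLinearMap.opNorm_comp_le _ _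
    _ ≤ ‖P‖ * (‖Q‖ * ‖R‖) :=
        mul_le_mul_of_nonneg_left (ContinuousLinearMap.opNorm_comp_le _ _) (norm_nonneg _)
    _ ≤ p * (q * r) := by gcongr
    _ = p * q * r := by ring

/-- three lines: if `A` and `D A D⁻¹` are bounded then so is `D^t A D^(-t)` -/
theorem three_lines (η : OrthonormalBasis ι ℂ E) (l : ι → ℝ) (A : E →L[ℂ] E) {a b : ℝ}
    (ha : ‖A‖ ≤ a) (hb : ‖dp η l 1 ∘L A ∘L dp η l (-1)‖ ≤ b) {t : ℝ} (ht0 : 0 ≤ t)
    (ht1 : t ≤ 1) : ‖dp η l t ∘L A ∘L dp η l (-t)‖ ≤ a ^ (1 - t) * b ^ t := by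
  have hmem : (t : ℂ) ∈ Complex.HadamardThreeLines.verticalClosedStrip 0 1 := by
    rw [Complex.HadamardThreeLines.verticalClosedStrip, Set.mem_preimage, Complex.ofReal_re]
    exact ⟨ht0, ht1⟩
  have hdiff : Differentiable ℂ fun z : ℂ => dp η l z ∘L A ∘L dp η l (-z) := by
    have h1 : Differentiable ℂ fun z : ℂ => dp η l z := by
      have := dp_differentiable η l 1
      simpa using this
    have h2 : Differentiable ℂ fun z : ℂ => dp η l (-z) := by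
      have := dp_differentiable η l (-1)
      simpa using this
    have h3 : Differentiable ℂ fun z : ℂ => dp η l z * (A * dp η l (-z)) :=
      h1.mul ((differentiable_const A).mul h2)
    exact h3
  have key := Complex.HadamardThreeLines.norm_le_interp_of_mem_verticalClosedStrip₀₁'
    (fun z : ℂ => dp η l z ∘L A ∘L dp η l (-z)) hmem hdiff.diffContOnCl (a := a) (b := b) ?_ ?_ ?_
  · simpa using key
  · refine ⟨Real.exp (∑ k, |l k|) * a * Real.exp (∑ k, |l k|), ?_⟩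
    rintro _ ⟨z, hz, rfl⟩
    rw [Complex.HadamardThreeLines.verticalClosedStrip, Set.mem_preimage, Set.mem_Icc] at hz
    refine norm_comp3_le _ _ _ (norm_dp_le η l z ?_) ha (norm_dp_le η l (-z) ?_)
    · rw [abs_le]; constructor <;> linarith [hz.1, hz.2]
    · rw [Complex.neg_re, abs_neg, abs_le]; constructor <;> linarith [hz.1, hz.2]
  · intro z hz
    rw [Set.mem_preimage, Set.mem_singleton_iff] at hz
    have h := norm_comp3_le _ _ _ (dp_isometry η l z hz) ha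
      (dp_isometry η l (-z) (by rw [Complex.neg_re, hz, neg_zero]))
    rwa [one_mul, mul_one] at h
  · intro z hz
    rw [Set.mem_preimage, Set.mem_singleton_iff] at hz
    have e1 : dp η l z = dp η l (z - 1) ∘L dp η l 1 := by
      rw [← dp_add]; congr 1; ring
    have e2 : dp η l (-z) = dp η l (-1) ∘L dp η l (-(z - 1)) := by
      rw [← dp_add]; congr 1; ring
    have e3 : dp η l z ∘L A ∘L dp η l (-z) =
        dp η l (z - 1) ∘L (dp η l 1 ∘L A ∘L dp η l (-1)) ∘L dp η l (-(z - 1)) := by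
      rw [e1, e2]
      rfl
    have hz0 : (z - 1).re = 0 := by rw [Complex.sub_re, hz, Complex.one_re, sub_self]
    have h := norm_comp3_le _ _ _ (dp_isometry η l (z - 1) hz0) hb
      (dp_isometry η l (-(z - 1)) (by rw [Complex.neg_re, hz0, neg_zero]))
    rw [one_mul, mul_one] at h
    change ‖dp η l z ∘L A ∘L dp η l (-z)‖ ≤ b
    rw [e3]
    exact h

/-- the complex power as an equivalence -/
noncomputable def dpE (η : OrthonormalBasis ι ℂ E) (l : ι → ℝ) (z : ℂ) : E ≃L[ℂ] E :=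
  ContinuousLinearEquiv.equivOfInverse (dp η l z) (dp η l (-z))
    (fun x => by
      have h := congrArg (fun P : E →L[ℂ] E => P x) (dp_add η l (-z) z)
      rw [neg_add_cancel, dp_zero] at h
      exact h.symm)
    (fun x => by
      have h := congrArg (fun P : E →L[ℂ] E => P x) (dp_add η l z (-z))
      rw [add_neg_cancel, dp_zero] at h
      exact h.symm)

theorem dpE_coe (η : OrthonormalBasis ι ℂ E) (l : ι → ℝ) (z : ℂ) :
    (dpE η l z : E →L[ℂ] E) = dp η l z := rfl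

theorem dpE_symm_coe (η : OrthonormalBasis ι ℂ E) (l : ι → ℝ) (z : ℂ) :
    ((dpE η l z).symm : E →L[ℂ] E) = dp η l (-z) := rfl

/-- the absolute value of an invertible operator -/
theorem exists_polar [FiniteDimensional ℂ E] {m : ℕ} (hm : Module.finrank ℂ E = m + 1)
    (ξ : E ≃L[ℂ] E) : ∃ (η : OrthonormalBasis (Fin (m + 1)) ℂ E) (l : Fin (m + 1) → ℝ),
      (∀ x, ‖dp η l 1 x‖ = ‖ξ.symm x‖) ∧ (∀ k, Real.exp (l k) ≤ ‖(ξ.symm : E →L[ℂ] E)‖) ∧
      ∀ k, Real.exp (-l k) ≤ ‖(ξ : E →L[ℂ] E)‖ := by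
  set R : E →L[ℂ] E := (ξ.symm : E →L[ℂ] E) with hR
  have hself : IsSelfAdjoint (ContinuousLinearMap.adjoint R ∘L R) := by
    rw [ContinuousLinearMap.isSelfAdjoint_iff', ContinuousLinearMap.adjoint_comp,
      ContinuousLinearMap.adjoint_adjoint]
  obtain ⟨η, d, hd⟩ := exists_diag hm _ hself
  have hq : ∀ x, ‖R x‖ ^ 2 = ∑ k, d k * ‖⟪η k, x⟫_ℂ‖ ^ 2 := by
    intro x
    rw [← hd, ContinuousLinearMap.comp_apply, ContinuousLinearMap.adjoint_inner_right,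
      inner_self_eq_norm_sq_to_K]
    norm_cast
  have hηk : ∀ k, ‖R (η k)‖ ^ 2 = d k := by
    intro k
    rw [hq, sum_basis]
  have hRpos : ∀ k, 0 < ‖R (η k)‖ := by
    intro k
    rw [norm_pos_iff]
    intro h
    have h1 : ξ.symm (η k) = 0 := h
    have h2 : η k = 0 := by
      have := congrArg ξ h1
      rwa [ξ.apply_symm_apply, map_zero] at this
    have h3 := η.norm_eq_one k
    rw [h2, norm_zero] at h3
    exact zero_ne_one h3
  have hexp : ∀ k, Real.exp (Real.log ‖R (η k)‖) = ‖R (η k)‖ := fun k =>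
    Real.exp_log (hRpos k)
  refine ⟨η, fun k => Real.log ‖R (η k)‖, fun x => ?_, fun k => ?_, fun k => ?_⟩
  · have h1 : ‖dp η (fun k => Real.log ‖R (η k)‖) 1 x‖ ^ 2 = ‖R x‖ ^ 2 := by
      unfold dp
      rw [norm_dg_sq, hq]
      refine Finset.sum_congr rfl fun k _ => ?_
      rw [norm_exp_entry, Complex.one_re, one_mul, hexp, hηk]
    have h2 : ‖dp η (fun k => Real.log ‖R (η k)‖) 1 x‖ = ‖R x‖ := by
      rwa [sq_eq_sq₀ (norm_nonneg _) (norm_nonneg _)] at h1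
    exact h2
  · rw [hexp]
    have h := R.le_opNorm (η k)
    rwa [η.norm_eq_one, mul_one] at h
  · rw [Real.exp_neg, hexp]
    have h := (ξ : E →L[ℂ] E).le_opNorm (R (η k))
    have h1 : (ξ : E →L[ℂ] E) (R (η k)) = η k := ξ.apply_symm_apply _
    rw [h1, η.norm_eq_one] at h
    rw [inv_le_iff_one_le_mul₀ (hRpos k)]
    exact h

theorem norm_dp_le_rpow (η : OrthonormalBasis ι ℂ E) (l : ι → ℝ) {c u : ℝ} (hu : 0 ≤ u)
    (h : ∀ k, Real.exp (l k) ≤ c) (hc : 0 ≤ c) : ‖dp η l u‖ ≤ c ^ u := by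
  refine norm_dg_le η _ (Real.rpow_nonneg hc _) fun k => ?_
  rw [norm_exp_entry, Complex.ofReal_re, mul_comm, Real.exp_mul]
  exact Real.rpow_le_rpow (Real.exp_pos _).le (h k) hu

theorem norm_dp_neg_le_rpow (η : OrthonormalBasis ι ℂ E) (l : ι → ℝ) {c u : ℝ} (hu : 0 ≤ u)
    (h : ∀ k, Real.exp (-l k) ≤ c) (hc : 0 ≤ c) : ‖dp η l (-u)‖ ≤ c ^ u := by
  refine norm_dg_le η _ (Real.rpow_nonneg hc _) fun k => ?_
  rw [norm_exp_entry, Complex.neg_re, Complex.ofReal_re, neg_mul, mul_comm, ← neg_mul,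
    Real.exp_mul]
  exact Real.rpow_le_rpow (Real.exp_pos _).le (h k) hu

end general

/-- the interpolation theorem -/
theorem interp {n : ℕ} (hn : 1 ≤ n)
    {T : EuclideanSpace ℂ (Fin n) →L[ℂ] EuclideanSpace ℂ (Fin n)} {C : ℝ} (hC : 1 ≤ C)
    (hT : PBdd C T) (ξ : EuclideanSpace ℂ (Fin n) ≃L[ℂ] EuclideanSpace ℂ (Fin n))
    (hξ : ‖(ξ.symm : EuclideanSpace ℂ (Fin n) →L[ℂ] EuclideanSpace ℂ (Fin n)) ∘L T ∘L
      (ξ : EuclideanSpace ℂ (Fin n) →L[ℂ] EuclideanSpace ℂ (Fin n))‖ ≤ 1)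
    {t : ℝ} (ht0 : 0 ≤ t) (ht1 : t ≤ 1) :
    ∃ T' : EuclideanSpace ℂ (Fin n) →L[ℂ] EuclideanSpace ℂ (Fin n), PBdd (C ^ t) T' ∧
      ∀ ζ' : EuclideanSpace ℂ (Fin n) ≃L[ℂ] EuclideanSpace ℂ (Fin n),
        ‖(ζ'.symm : EuclideanSpace ℂ (Fin n) →L[ℂ] EuclideanSpace ℂ (Fin n)) ∘L T' ∘L
          (ζ' : EuclideanSpace ℂ (Fin n) →L[ℂ] EuclideanSpace ℂ (Fin n))‖ ≤ 1 →
        ∃ ζ : EuclideanSpace ℂ (Fin n) ≃L[ℂ] EuclideanSpace ℂ (Fin n),
          ‖(ζ.symm : EuclideanSpace ℂ (Fin n) →L[ℂ] EuclideanSpace ℂ (Fin n)) ∘L T ∘L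
            (ζ : EuclideanSpace ℂ (Fin n) →L[ℂ] EuclideanSpace ℂ (Fin n))‖ ≤ 1 ∧
          ‖(ζ : EuclideanSpace ℂ (Fin n) →L[ℂ] EuclideanSpace ℂ (Fin n))‖ *
            ‖(ζ.symm : EuclideanSpace ℂ (Fin n) →L[ℂ] EuclideanSpace ℂ (Fin n))‖ ≤
          (‖(ξ : EuclideanSpace ℂ (Fin n) →L[ℂ] EuclideanSpace ℂ (Fin n))‖ *
            ‖(ξ.symm : EuclideanSpace ℂ (Fin n) →L[ℂ] EuclideanSpace ℂ (Fin n))‖) ^ (1 - t) *
          (‖(ζ' : EuclideanSpace ℂ (Fin n) →L[ℂ] EuclideanSpace ℂ (Fin n))‖ *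
            ‖(ζ'.symm : EuclideanSpace ℂ (Fin n) →L[ℂ] EuclideanSpace ℂ (Fin n))‖) := by
  obtain ⟨m, rfl⟩ : ∃ m, n = m + 1 := ⟨n - 1, by omega⟩
  obtain ⟨η, l, h1, h2, h3⟩ := exists_polar (finrank_euclideanSpace_fin (𝕜 := ℂ) (n := m + 1)) ξ
  -- the contraction
  have hA : ‖dp η l 1 ∘L T ∘L dp η l (-1)‖ ≤ 1 := by
    refine ContinuousLinearMap.opNorm_le_bound _ zero_le_one fun x => ?_
    change ‖dp η l 1 (T (dp η l (-1) x))‖ ≤ 1 * ‖x‖
    rw [h1, one_mul]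
    set y := dp η l (-1) x with hy
    have e1 : ξ.symm (T y) = ((ξ.symm : EuclideanSpace ℂ (Fin (m + 1)) →L[ℂ]
        EuclideanSpace ℂ (Fin (m + 1))) ∘L T ∘L
        (ξ : EuclideanSpace ℂ (Fin (m + 1)) →L[ℂ] EuclideanSpace ℂ (Fin (m + 1)))) (ξ.symm y) := by
      change ξ.symm (T y) = ξ.symm (T (ξ (ξ.symm y)))
      rw [ξ.apply_symm_apply]
    rw [e1]
    refine (ContinuousLinearMap.le_opNorm _ _).trans ?_
    refine (mul_le_of_le_one_left (norm_nonneg _) hξ).trans ?_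
    rw [← h1, hy]
    have e2 : dp η l 1 (dp η l (-1) x) = x := by
      have h := congrArg (fun P : EuclideanSpace ℂ (Fin (m + 1)) →L[ℂ]
        EuclideanSpace ℂ (Fin (m + 1)) => P x) (dp_add η l 1 (-1))
      rw [add_neg_cancel, dp_zero] at h
      exact h.symm
    rw [e2]
  have hconj : ∀ (z : ℂ) (q : ℂ[X]), aeval (dp η l z ∘L T ∘L dp η l (-z)) q =
      dp η l z ∘L aeval T q ∘L dp η l (-z) := by
    intro z q
    have h := aeval_conj T (dpE η l z).symm q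
    exact h
  have hu0 : (0 : ℝ) ≤ 1 - t := by linarith
  have hu1 : 1 - t ≤ (1 : ℝ) := by linarith
  refine ⟨dp η l ((1 - t : ℝ) : ℂ) ∘L T ∘L dp η l (-((1 - t : ℝ) : ℂ)), ?_, ?_⟩
  · intro q s hq
    have hs : 0 ≤ s := (norm_nonneg _).trans (hq 0 (by simp))
    rw [hconj]
    have h4 : ‖dp η l 1 ∘L aeval T q ∘L dp η l (-1)‖ ≤ s := by
      have h := vn _ hA q s hq
      rw [one_mul, hconj] at h
      exact h
    have h5 := three_lines η l (aeval T q) (hT q s hq) h4 hu0 hu1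
    refine h5.trans (le_of_eq ?_)
    rw [sub_sub_cancel, Real.mul_rpow (by linarith) hs, mul_assoc]
    congr 1
    rcases eq_or_lt_of_le hs with h0 | h0
    · rw [← h0]
      rcases eq_or_lt_of_le ht0 with h6 | h6
      · rw [← h6, sub_zero, Real.rpow_one, mul_zero]
      · rw [Real.zero_rpow h6.ne', zero_mul]
    · rw [← Real.rpow_add h0, add_sub_cancel, Real.rpow_one]
  · intro ζ' hζ'
    refine ⟨ζ'.trans (dpE η l (-((1 - t : ℝ) : ℂ))), ?_, ?_⟩
    · have e3 : (((ζ'.trans (dpE η l (-((1 - t : ℝ) : ℂ)))).symm :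
          EuclideanSpace ℂ (Fin (m + 1)) →L[ℂ] EuclideanSpace ℂ (Fin (m + 1))) ∘L T ∘L
          ((ζ'.trans (dpE η l (-((1 - t : ℝ) : ℂ)))) :
          EuclideanSpace ℂ (Fin (m + 1)) →L[ℂ] EuclideanSpace ℂ (Fin (m + 1)))) =
          (ζ'.symm : EuclideanSpace ℂ (Fin (m + 1)) →L[ℂ] EuclideanSpace ℂ (Fin (m + 1))) ∘L
          (dp η l ((1 - t : ℝ) : ℂ) ∘L T ∘L dp η l (-((1 - t : ℝ) : ℂ))) ∘L
          (ζ' : EuclideanSpace ℂ (Fin (m + 1)) →L[ℂ] EuclideanSpace ℂ (Fin (m + 1))) := by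
        have e4 : ((dpE η l (-((1 - t : ℝ) : ℂ))).symm :
            EuclideanSpace ℂ (Fin (m + 1)) →L[ℂ] EuclideanSpace ℂ (Fin (m + 1))) =
            dp η l ((1 - t : ℝ) : ℂ) := by
          rw [dpE_symm_coe, neg_neg]
        rw [← e4]
        rfl
      rw [e3]
      exact hζ'
    · have h6 : ‖((ζ'.trans (dpE η l (-((1 - t : ℝ) : ℂ)))) :
          EuclideanSpace ℂ (Fin (m + 1)) →L[ℂ] EuclideanSpace ℂ (Fin (m + 1)))‖ ≤
          ‖(ξ : EuclideanSpace ℂ (Fin (m + 1)) →L[ℂ] EuclideanSpace ℂ (Fin (m + 1)))‖ ^ (1 - t) *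
          ‖(ζ' : EuclideanSpace ℂ (Fin (m + 1)) →L[ℂ] EuclideanSpace ℂ (Fin (m + 1)))‖ := by
        refine (ContinuousLinearMap.opNorm_comp_le (dp η l (-((1 - t : ℝ) : ℂ)))
          (ζ' : EuclideanSpace ℂ (Fin (m + 1)) →L[ℂ] EuclideanSpace ℂ (Fin (m + 1)))).trans ?_
        exact mul_le_mul_of_nonneg_right (norm_dp_neg_le_rpow η l hu0 h3 (norm_nonneg _))
          (norm_nonneg _)
      have h7 : ‖((ζ'.trans (dpE η l (-((1 - t : ℝ) : ℂ)))).symm :
          EuclideanSpace ℂ (Fin (m + 1)) →L[ℂ] EuclideanSpace ℂ (Fin (m + 1)))‖ ≤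
          ‖(ζ'.symm : EuclideanSpace ℂ (Fin (m + 1)) →L[ℂ] EuclideanSpace ℂ (Fin (m + 1)))‖ *
          ‖(ξ.symm : EuclideanSpace ℂ (Fin (m + 1)) →L[ℂ]
            EuclideanSpace ℂ (Fin (m + 1)))‖ ^ (1 - t) := by
        refine (ContinuousLinearMap.opNorm_comp_le
          (ζ'.symm : EuclideanSpace ℂ (Fin (m + 1)) →L[ℂ] EuclideanSpace ℂ (Fin (m + 1)))
          (dp η l (- -((1 - t : ℝ) : ℂ)))).trans ?_
        rw [neg_neg]
        exact mul_le_mul_of_nonneg_left (norm_dp_le_rpow η l hu0 h2 (norm_nonneg _))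
          (norm_nonneg _)
      refine (mul_le_mul h6 h7 (norm_nonneg _) (by positivity)).trans (le_of_eq ?_)
      rw [Real.mul_rpow (norm_nonneg _) (norm_nonneg _)]
      ring

end Pool.Agent.Helper69.SIM
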