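import Pool.Agent.Helper69.SIM.Diag

/-!
# A polynomially `C`-bounded operator of norm `C`
-/

set_option autoImplicit false

open scoped ComplexConjugate InnerProductSpace
open Polynomial

namespace Pool.Agent.Helper69.SIM

theorem PBdd.mono {E : Type} [NormedAddCommGroup E] [InnerProductSpace ℂ E] {A : E →L[ℂ] E}
    {K K' : ℝ} (h : K ≤ K') (hA : PBdd K A) : PBdd K' A := by
  intro q s hq
  have hs : 0 ≤ s := (norm_nonneg _).trans (hq 0 (by simp))
  exact (hA q s hq).trans (mul_le_mul_of_nonneg_right h hs)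

theorem exists_lower {n : ℕ} (hn : 2 ≤ n) {C : ℝ} (hC : 1 ≤ C) :
    ∃ T : EuclideanSpace ℂ (Fin n) →L[ℂ] EuclideanSpace ℂ (Fin n), PBdd C T ∧ C ≤ ‖T‖ := by
  set η := EuclideanSpace.basisFun (Fin n) ℂ with hη
  obtain ⟨i, j, hij⟩ : ∃ i j : Fin n, i ≠ j :=
    ⟨⟨0, by omega⟩, ⟨1, by omega⟩, by simp [Fin.ext_iff]⟩
  have hC0 : (0 : ℝ) < C := by linarith
  set N : EuclideanSpace ℂ (Fin n) →L[ℂ] EuclideanSpace ℂ (Fin n) :=
    (innerSL ℂ (η j)).smulRight (η i) with hN
  have hNx : ∀ x, N x = ⟪η j, x⟫_ℂ • η i := fun x => by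
    simp only [hN, ContinuousLinearMap.smulRight_apply, innerSL_apply_apply]
  have hN1 : ‖N‖ ≤ 1 := by
    refine ContinuousLinearMap.opNorm_le_bound _ zero_le_one fun x => ?_
    rw [hNx, norm_smul, η.norm_eq_one, mul_one, one_mul]
    refine (norm_inner_le_norm _ _).trans ?_
    rw [η.norm_eq_one, one_mul]
  set g : Fin n → ℂ := fun k => if k = i then ((C⁻¹ : ℝ) : ℂ) else 1 with hg
  have hg0 : ∀ k, g k ≠ 0 := by
    intro k
    simp only [hg]
    split_ifs
    · exact_mod_cast (inv_pos.2 hC0).ne'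
    · exact one_ne_zero
  have h1 := (vn N hN1).conj (dgE η g hg0)
  refine ⟨_, h1.mono ?_, ?_⟩
  · rw [dgE_coe, dgE_symm_coe, mul_one]
    have h2 : ‖dg η g‖ ≤ 1 := by
      refine norm_dg_le η g zero_le_one fun k => ?_
      simp only [hg]
      split_ifs
      · rw [Complex.norm_real, Real.norm_of_nonneg (inv_nonneg.2 hC0.le)]
        exact inv_le_one_of_one_le₀ hC
      · rw [norm_one]
    have h3 : ‖dg η fun k => (g k)⁻¹‖ ≤ C := by
      refine norm_dg_le η _ hC0.le fun k => ?_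
      simp only [hg]
      split_ifs
      · rw [norm_inv, Complex.norm_real, Real.norm_of_nonneg (inv_nonneg.2 hC0.le), inv_inv]
      · rw [inv_one, norm_one]
        exact hC
    calc ‖dg η g‖ * ‖dg η fun k => (g k)⁻¹‖ ≤ 1 * C := by gcongr
      _ = C := one_mul C
  · set T := ((dgE η g hg0).symm : EuclideanSpace ℂ (Fin n) →L[ℂ] EuclideanSpace ℂ (Fin n)) ∘L N ∘L
      (dgE η g hg0 : EuclideanSpace ℂ (Fin n) →L[ℂ] EuclideanSpace ℂ (Fin n)) with hT
    have h4 : ⟪η i, T (η j)⟫_ℂ = (C : ℂ) := by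
      change ⟪η i, dg η (fun k => (g k)⁻¹) (N (dg η g (η j)))⟫_ℂ = (C : ℂ)
      have gi : g i = ((C⁻¹ : ℝ) : ℂ) := by rw [hg]; exact if_pos rfl
      have gj : g j = 1 := by rw [hg]; exact if_neg (Ne.symm hij)
      have ei : ⟪η i, η i⟫_ℂ = 1 := by
        rw [inner_self_eq_norm_sq_to_K, η.norm_eq_one]; simp
      have ej : ⟪η j, η j⟫_ℂ = 1 := by
        rw [inner_self_eq_norm_sq_to_K, η.norm_eq_one]; simp
      rw [inner_dg, hNx, inner_smul_right, inner_dg, gi, gj, ei, ej]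
      push_cast
      rw [inv_inv, mul_one, mul_one, mul_one]
    have h5 := T.le_opNorm (η j)
    rw [η.norm_eq_one, mul_one] at h5
    have h6 := norm_inner_le_norm (𝕜 := ℂ) (η i) (T (η j))
    rw [h4, η.norm_eq_one, one_mul, Complex.norm_real, Real.norm_of_nonneg hC0.le] at h6
    exact h6.trans h5

end Pool.Agent.Helper69.SIM
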