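import Pool.Agent.Helper69.SIM.Dual

/-!
# Polynomially bounded operators satisfy the Moebius inequalities
-/

set_option autoImplicit false

open scoped ComplexConjugate InnerProductSpace
open Polynomial

namespace Pool.Agent.Helper69.SIM

/-- the truncated power series of `(z - conj a) / (1 - a z)` -/
noncomputable def mpol (a : ℂ) (N : ℕ) : ℂ[X] :=
  C (-conj a) + C (1 - a * conj a) * ∑ k ∈ Finset.range N, C (a ^ k) * X ^ (k + 1)

theorem mpol_sum (a : ℂ) (N : ℕ) :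
    (∑ k ∈ Finset.range N, C (a ^ k) * X ^ (k + 1)) * (1 - C a * X) =
      (X : ℂ[X]) - C (a ^ N) * X ^ (N + 1) := by
  induction N with
  | zero => simp
  | succ N ih =>
    rw [Finset.sum_range_succ, add_mul, ih]
    simp only [pow_succ, C_mul]
    ring

theorem mpol_mul (a : ℂ) (N : ℕ) : mpol a N * (1 - C a * X) =
    X - C (conj a) - C ((1 - a * conj a) * a ^ N) * X ^ (N + 1) := by
  have h1 := mpol_sum a N
  unfold mpol
  rw [add_mul, mul_assoc (C (1 - a * conj a)), h1]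
  simp only [C_mul, C_sub, C_neg, C_1]
  ring

/-- the Moebius inequality in the disc -/
theorem mob_disc (a z : ℂ) (ha : ‖a‖ ≤ 1) (hz : ‖z‖ ≤ 1) : ‖z - conj a‖ ≤ ‖1 - a * z‖ := by
  have h1 : ‖z - conj a‖ ^ 2 ≤ ‖1 - a * z‖ ^ 2 := by
    have e1 : ‖1 - a * z‖ ^ 2 - ‖z - conj a‖ ^ 2 = (1 - ‖a‖ ^ 2) * (1 - ‖z‖ ^ 2) := by
      rw [← Complex.normSq_eq_norm_sq, ← Complex.normSq_eq_norm_sq, ← Complex.normSq_eq_norm_sq,
        ← Complex.normSq_eq_norm_sq]
      simp only [Complex.normSq_apply, Complex.sub_re, Complex.sub_im, Complex.mul_re,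
        Complex.mul_im, Complex.conj_re, Complex.conj_im, Complex.one_re, Complex.one_im]
      ring
    have h2 : 0 ≤ (1 - ‖a‖ ^ 2) * (1 - ‖z‖ ^ 2) := by
      apply mul_nonneg
      · nlinarith [norm_nonneg a]
      · nlinarith [norm_nonneg z]
    linarith
  exact abs_le_of_sq_le_sq' h1 (norm_nonneg _) |>.2

theorem mpol_bound (a : ℂ) (ha : ‖a‖ < 1) (N : ℕ) (z : ℂ) (hz : ‖z‖ ≤ 1) :
    ‖(mpol a N).eval z‖ ≤ 1 + 2 * ‖a‖ ^ N := by
  have h0 : (mpol a N).eval z * (1 - a * z) =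
      z - conj a - ((1 - a * conj a) * a ^ N) * z ^ (N + 1) := by
    have := congrArg (eval z) (mpol_mul a N)
    simpa using this
  have h1 : 1 - ‖a‖ ≤ ‖1 - a * z‖ := by
    have h2 : ‖a * z‖ ≤ ‖a‖ := by
      rw [norm_mul]
      exact mul_le_of_le_one_right (norm_nonneg _) hz
    have h3 := norm_sub_norm_le (1 : ℂ) (a * z)
    rw [norm_one] at h3
    linarith
  have hpos : 0 < 1 - ‖a‖ := by linarith
  have hpos2 : 0 < ‖1 - a * z‖ := hpos.trans_le h1
  have h4 : ‖(1 : ℂ) - a * conj a‖ = 1 - ‖a‖ ^ 2 := by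
    rw [Complex.mul_conj, Complex.normSq_eq_norm_sq, ← Complex.ofReal_one, ← Complex.ofReal_sub,
      Complex.norm_real, Real.norm_of_nonneg]
    nlinarith [norm_nonneg a]
  have h5 : ‖(mpol a N).eval z‖ * ‖1 - a * z‖ ≤ (1 + 2 * ‖a‖ ^ N) * ‖1 - a * z‖ := by
    rw [← norm_mul, h0]
    calc ‖z - conj a - ((1 - a * conj a) * a ^ N) * z ^ (N + 1)‖
        ≤ ‖z - conj a‖ + ‖((1 - a * conj a) * a ^ N) * z ^ (N + 1)‖ := norm_sub_le _ _
      _ ≤ ‖1 - a * z‖ + (1 - ‖a‖ ^ 2) * ‖a‖ ^ N := by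
        refine add_le_add (mob_disc a z ha.le hz) ?_
        rw [norm_mul, norm_mul, h4, norm_pow, norm_pow]
        refine mul_le_of_le_one_right ?_ (pow_le_one₀ (norm_nonneg _) hz)
        have : 0 ≤ 1 - ‖a‖ ^ 2 := by nlinarith [norm_nonneg a]
        positivity
      _ ≤ ‖1 - a * z‖ + (2 * ‖a‖ ^ N) * ‖1 - a * z‖ := by
        have h6 : (1 - ‖a‖ ^ 2) ≤ 2 * (1 - ‖a‖) := by nlinarith [norm_nonneg a]
        have h7 : 0 ≤ ‖a‖ ^ N := by positivity
        have h8 : (1 - ‖a‖ ^ 2) ≤ 2 * ‖1 - a * z‖ := by linarith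
        nlinarith [mul_le_mul_of_nonneg_right h8 h7]
      _ = (1 + 2 * ‖a‖ ^ N) * ‖1 - a * z‖ := by ring
  exact le_of_mul_le_mul_right h5 hpos2

variable {E : Type} [NormedAddCommGroup E] [InnerProductSpace ℂ E]

/-- `P(T)` is bounded by `K s` for every polynomial `P` which is bounded by `s` on the disc -/
def PBdd (K : ℝ) (T : E →L[ℂ] E) : Prop :=
  ∀ (q : ℂ[X]) (s : ℝ), (∀ z : ℂ, ‖z‖ ≤ 1 → ‖q.eval z‖ ≤ s) → ‖aeval T q‖ ≤ K * s

theorem PBdd.pow_le {K : ℝ} {T : E →L[ℂ] E} (hT : PBdd K T) (N : ℕ) : ‖T ^ N‖ ≤ K := by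
  have h1 := hT (X ^ N) 1 (fun z hz => by
    rw [eval_pow, eval_X, norm_pow]
    exact pow_le_one₀ (norm_nonneg _) hz)
  rwa [map_pow, aeval_X, mul_one] at h1

theorem mobius_of_PBdd {K : ℝ} (hK : 1 ≤ K) {T : E →L[ℂ] E} (hT : PBdd K T) (a : ℂ)
    (ha : ‖a‖ ≤ 1) (w : E) : ‖T w - conj a • w‖ ≤ K * ‖w - a • T w‖ := by
  rcases eq_or_lt_of_le ha with ha1 | ha1
  · have h1 : T w - conj a • w = (-conj a) • (w - a • T w) := by
      have h2 : conj a * a = 1 := by
        rw [mul_comm, Complex.mul_conj, Complex.normSq_eq_norm_sq, ha1]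
        norm_num
      rw [smul_sub, smul_smul, neg_mul, h2]
      simp only [neg_smul, one_smul]
      abel
    rw [h1, norm_smul, norm_neg, RCLike.norm_conj, ha1, one_mul]
    exact le_mul_of_one_le_left (norm_nonneg _) hK
  · have key : ∀ N : ℕ, ‖T w - conj a • w‖ ≤
        K * (1 + 2 * ‖a‖ ^ N) * ‖w - a • T w‖ + ‖a‖ ^ N * (K * ‖w‖) := by
      intro N
      have e1 : (aeval T (mpol a N)) (w - a • T w) =
          T w - conj a • w - ((1 - a * conj a) * a ^ N) • (T ^ (N + 1)) w := by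
        have h1 := congrArg (aeval T) (mpol_mul a N)
        rw [map_mul, map_sub, map_sub, map_sub, map_one, map_mul, map_mul, aeval_C, aeval_C,
          aeval_C, map_pow, aeval_X, Algebra.algebraMap_eq_smul_one,
          Algebra.algebraMap_eq_smul_one, Algebra.algebraMap_eq_smul_one, smul_mul_assoc,
          smul_mul_assoc, one_mul, one_mul] at h1
        exact congrArg (fun A : E →L[ℂ] E => A w) h1
      have h3 : T w - conj a • w = (aeval T (mpol a N)) (w - a • T w) +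
          ((1 - a * conj a) * a ^ N) • (T ^ (N + 1)) w := by
        rw [e1]; abel
      rw [h3]
      refine (norm_add_le _ _).trans (add_le_add ?_ ?_)
      · refine (ContinuousLinearMap.le_opNorm _ _).trans ?_
        exact mul_le_mul_of_nonneg_right (hT _ _ (mpol_bound a ha1 N)) (norm_nonneg _)
      · have h4 : ‖(1 : ℂ) - a * conj a‖ ≤ 1 := by
          rw [Complex.mul_conj, Complex.normSq_eq_norm_sq, ← Complex.ofReal_one,
            ← Complex.ofReal_sub, Complex.norm_real, Real.norm_of_nonneg]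
          · nlinarith [norm_nonneg a]
          · nlinarith [norm_nonneg a]
        rw [norm_smul, norm_mul, norm_pow]
        have h5 : ‖(T ^ (N + 1)) w‖ ≤ K * ‖w‖ :=
          (ContinuousLinearMap.le_opNorm _ _).trans
            (mul_le_mul_of_nonneg_right (hT.pow_le _) (norm_nonneg _))
        calc ‖(1 : ℂ) - a * conj a‖ * ‖a‖ ^ N * ‖(T ^ (N + 1)) w‖
            ≤ 1 * ‖a‖ ^ N * (K * ‖w‖) := by gcongr
          _ = ‖a‖ ^ N * (K * ‖w‖) := by rw [one_mul]
    have hlim : Filter.Tendsto (fun N : ℕ =>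
        K * (1 + 2 * ‖a‖ ^ N) * ‖w - a • T w‖ + ‖a‖ ^ N * (K * ‖w‖)) Filter.atTop
        (nhds (K * (1 + 2 * 0) * ‖w - a • T w‖ + 0 * (K * ‖w‖))) := by
      have h0 := tendsto_pow_atTop_nhds_zero_of_lt_one (norm_nonneg a) ha1
      exact (((h0.const_mul 2).const_add 1).const_mul K |>.mul_const _).add (h0.mul_const _)
    have h6 := ge_of_tendsto' hlim key
    simpa using h6

end Pool.Agent.Helper69.SIM
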