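import Pool.Agent.Helper69.SIM.Mobius

/-!
# Similarity to a contraction with constant `K ^ (n - 1)`
-/

set_option autoImplicit false

open scoped ComplexConjugate InnerProductSpace
open Polynomial

namespace Pool.Agent.Helper69.SIM

variable {E : Type} [NormedAddCommGroup E] [InnerProductSpace ℂ E] [FiniteDimensional ℂ E]

/-- the upper bound: the similarity constant is at most `K ^ (dim - 1)` -/
theorem exists_similar {K : ℝ} (hK : 1 ≤ K) {T : E →L[ℂ] E} (hT : PBdd K T) {m : ℕ}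
    (hm : Module.finrank ℂ E = m + 1) :
    ∃ ξ : E ≃L[ℂ] E, ‖(ξ.symm : E →L[ℂ] E) ∘L T ∘L (ξ : E →L[ℂ] E)‖ ≤ 1 ∧
      ‖(ξ : E →L[ℂ] E)‖ * ‖(ξ.symm : E →L[ℂ] E)‖ ≤ K ^ m := by
  obtain ⟨R, h1, h2, h3⟩ := exists_metric hK T (mobius_of_PBdd hK hT) hm
  have hinj : Function.Injective (R : E →ₗ[ℂ] E) := by
    rw [injective_iff_map_eq_zero]
    intro x hx
    have h4 := h1 x
    change (R x : E) = 0 at hx
    rw [hx, norm_zero] at h4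
    exact norm_eq_zero.1 (le_antisymm h4 (norm_nonneg _))
  obtain ⟨e, he⟩ : ∃ e : E ≃L[ℂ] E, ∀ x, e x = R x :=
    ⟨(LinearEquiv.ofInjectiveEndo (R : E →ₗ[ℂ] E) hinj).toContinuousLinearEquiv, fun x => rfl⟩
  refine ⟨e.symm, ?_, ?_⟩
  · refine ContinuousLinearMap.opNorm_le_bound _ zero_le_one fun x => ?_
    change ‖e (T (e.symm x))‖ ≤ 1 * ‖x‖
    rw [he, one_mul]
    refine (h3 _).trans ?_
    rw [← he, e.apply_symm_apply]
  · have h5 : ‖(e.symm : E →L[ℂ] E)‖ ≤ 1 := by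
      refine ContinuousLinearMap.opNorm_le_bound _ zero_le_one fun x => ?_
      change ‖e.symm x‖ ≤ 1 * ‖x‖
      rw [one_mul]
      refine (h1 _).trans ?_
      rw [← he, e.apply_symm_apply]
    have h6 : ‖(e.symm.symm : E →L[ℂ] E)‖ ≤ K ^ m := by
      refine ContinuousLinearMap.opNorm_le_bound _ (by positivity) fun x => ?_
      change ‖e x‖ ≤ K ^ m * ‖x‖
      rw [he]
      exact h2 x
    calc ‖(e.symm : E →L[ℂ] E)‖ * ‖(e.symm.symm : E →L[ℂ] E)‖ ≤ 1 * K ^ m := by gcongr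
      _ = K ^ m := one_mul _

end Pool.Agent.Helper69.SIM

namespace Pool.Agent.Helper69.SIM

variable {E : Type} [NormedAddCommGroup E] [InnerProductSpace ℂ E]

/-- the norm is at most the similarity constant -/
theorem norm_le_cond (T : E →L[ℂ] E) (ξ : E ≃L[ℂ] E)
    (h : ‖(ξ.symm : E →L[ℂ] E) ∘L T ∘L (ξ : E →L[ℂ] E)‖ ≤ 1) :
    ‖T‖ ≤ ‖(ξ : E →L[ℂ] E)‖ * ‖(ξ.symm : E →L[ℂ] E)‖ := by
  refine ContinuousLinearMap.opNorm_le_bound _ (by positivity) fun x => ?_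
  have h1 : T x = ξ (((ξ.symm : E →L[ℂ] E) ∘L T ∘L (ξ : E →L[ℂ] E)) (ξ.symm x)) := by
    change T x = ξ (ξ.symm (T (ξ (ξ.symm x))))
    rw [ξ.apply_symm_apply, ξ.apply_symm_apply]
  rw [h1]
  generalize hA : (ξ.symm : E →L[ℂ] E) ∘L T ∘L (ξ : E →L[ℂ] E) = A at h
  have h2 : ‖A (ξ.symm x)‖ ≤ ‖(ξ.symm : E →L[ℂ] E)‖ * ‖x‖ := by
    refine (A.le_opNorm _).trans ?_
    refine (mul_le_of_le_one_left (norm_nonneg _) h).trans ?_
    exact (ξ.symm : E →L[ℂ] E).le_opNorm x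
  calc ‖(ξ : E →L[ℂ] E) (A (ξ.symm x))‖
      ≤ ‖(ξ : E →L[ℂ] E)‖ * ‖A (ξ.symm x)‖ := ContinuousLinearMap.le_opNorm _ _
    _ ≤ ‖(ξ : E →L[ℂ] E)‖ * (‖(ξ.symm : E →L[ℂ] E)‖ * ‖x‖) :=
        mul_le_mul_of_nonneg_left h2 (norm_nonneg _)
    _ = ‖(ξ : E →L[ℂ] E)‖ * ‖(ξ.symm : E →L[ℂ] E)‖ * ‖x‖ := by ring

/-- the polynomial functional calculus commutes with similarities -/
theorem aeval_conj (A : E →L[ℂ] E) (ξ : E ≃L[ℂ] E) (q : ℂ[X]) :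
    aeval ((ξ.symm : E →L[ℂ] E) ∘L A ∘L (ξ : E →L[ℂ] E)) q =
      (ξ.symm : E →L[ℂ] E) ∘L (aeval A q) ∘L (ξ : E →L[ℂ] E) := by
  have hpow : ∀ k : ℕ, ((ξ.symm : E →L[ℂ] E) ∘L A ∘L (ξ : E →L[ℂ] E)) ^ k =
      (ξ.symm : E →L[ℂ] E) ∘L (A ^ k) ∘L (ξ : E →L[ℂ] E) := by
    intro k
    induction k with
    | zero =>
      ext1 x
      change x = ξ.symm (ξ x)
      rw [ξ.symm_apply_apply]
    | succ k ih =>
      rw [pow_succ, ih]
      ext1 x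
      change ξ.symm ((A ^ k) (ξ (ξ.symm (A (ξ x))))) = ξ.symm ((A ^ (k + 1)) (ξ x))
      rw [ξ.apply_symm_apply, pow_succ]
      rfl
  induction q using Polynomial.induction_on' with
  | add p q hp hq =>
    rw [map_add, map_add, hp, hq]
    ext1 x
    change ξ.symm _ + ξ.symm _ = ξ.symm (_ + _)
    rw [map_add]
    rfl
  | monomial k c =>
    rw [aeval_monomial, aeval_monomial, ← Algebra.smul_def, ← Algebra.smul_def, hpow]
    ext1 x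
    change c • ξ.symm ((A ^ k) (ξ x)) = ξ.symm (c • (A ^ k) (ξ x))
    rw [map_smul]

/-- an operator similar to one with bounded functional calculus -/
theorem PBdd.conj {A : E →L[ℂ] E} {K : ℝ} (hA : PBdd K A) (ξ : E ≃L[ℂ] E) :
    PBdd (‖(ξ : E →L[ℂ] E)‖ * ‖(ξ.symm : E →L[ℂ] E)‖ * K)
      ((ξ.symm : E →L[ℂ] E) ∘L A ∘L (ξ : E →L[ℂ] E)) := by
  intro q s hq
  rw [aeval_conj]
  calc ‖(ξ.symm : E →L[ℂ] E) ∘L (aeval A q) ∘L (ξ : E →L[ℂ] E)‖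
      ≤ ‖(ξ.symm : E →L[ℂ] E)‖ * ‖(aeval A q) ∘L (ξ : E →L[ℂ] E)‖ :=
        ContinuousLinearMap.opNorm_comp_le _ _
    _ ≤ ‖(ξ.symm : E →L[ℂ] E)‖ * (‖aeval A q‖ * ‖(ξ : E →L[ℂ] E)‖) :=
        mul_le_mul_of_nonneg_left (ContinuousLinearMap.opNorm_comp_le _ _) (norm_nonneg _)
    _ ≤ ‖(ξ.symm : E →L[ℂ] E)‖ * ((K * s) * ‖(ξ : E →L[ℂ] E)‖) :=
        mul_le_mul_of_nonneg_left (mul_le_mul_of_nonneg_right (hA q s hq) (norm_nonneg _))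
          (norm_nonneg _)
    _ = _ := by ring

end Pool.Agent.Helper69.SIM
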