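import Pool.Agent.Helper69.SIM.Similar
import Pool.Agent.Helper89.PB.F2

/-!
# The von Neumann inequality for contractions of `EuclideanSpace ℂ (Fin n)`
-/

set_option autoImplicit false

open scoped ComplexConjugate InnerProductSpace
open Polynomial

namespace Pool.Agent.Helper69.SIM

theorem sq_ofLp {n : ℕ} (v : EuclideanSpace ℂ (Fin n)) : PB.sq (WithLp.ofLp v) = ‖v‖ ^ 2 := by
  rw [EuclideanSpace.norm_sq_eq]
  rfl

theorem vn {n : ℕ} (T : EuclideanSpace ℂ (Fin n) →L[ℂ] EuclideanSpace ℂ (Fin n))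
    (hT : ‖T‖ ≤ 1) : PBdd 1 T := by
  intro q s hq
  rw [one_mul]
  have hs : 0 ≤ s := (norm_nonneg _).trans (hq 0 (by simp))
  obtain ⟨M, hM⟩ : ∃ M, Matrix.toEuclideanCLM (n := Fin n) (𝕜 := ℂ) M = T :=
    ⟨(Matrix.toEuclideanCLM (n := Fin n) (𝕜 := ℂ)).symm T,
      (Matrix.toEuclideanCLM (n := Fin n) (𝕜 := ℂ)).apply_symm_apply T⟩
  have hMB : PB.MB M 1 := by
    intro x
    have h1 := T.le_opNorm (WithLp.toLp 2 x)
    have h2 : PB.sq (M.mulVec x) = ‖T (WithLp.toLp 2 x)‖ ^ 2 := by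
      rw [← hM, ← sq_ofLp]
      rfl
    have h3 : PB.sq x = ‖(WithLp.toLp 2 x : EuclideanSpace ℂ (Fin n))‖ ^ 2 := by
      rw [← sq_ofLp]
    rw [h2, h3, ← mul_pow]
    refine pow_le_pow_left₀ (norm_nonneg _) (h1.trans ?_) 2
    exact mul_le_mul_of_nonneg_right hT (norm_nonneg _)
  refine ContinuousLinearMap.opNorm_le_bound _ hs fun v => ?_
  have hA : ∀ x, aeval T q x = WithLp.toLp 2 ((aeval M q).mulVec (WithLp.ofLp x)) := by
    intro x
    have h1 : aeval T q = Matrix.toEuclideanCLM (n := Fin n) (𝕜 := ℂ) (aeval M q) := by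
      rw [← hM]
      exact Polynomial.aeval_algHom_apply (Matrix.toEuclideanCLM (n := Fin n) (𝕜 := ℂ)) M q
    rw [h1]
    rfl
  set w : Fin n → ℂ := (aeval M q).mulVec (WithLp.ofLp v) with hw
  have hn : ‖aeval T q v‖ ^ 2 = PB.sq w := by
    rw [hA, ← sq_ofLp]
  have key := PB.vonNeumann (α := Unit) (β := Unit) M hMB (fun _ _ => q) s hs
    (fun z hz x y => by
      simp only [Finset.univ_unique, Finset.sum_singleton]
      have e1 : ∀ u : Unit → ℂ, Real.sqrt (PB.sq u) = ‖u ()‖ := by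
        intro u
        unfold PB.sq
        simp only [Finset.univ_unique, Finset.sum_singleton]
        exact Real.sqrt_sq (norm_nonneg _)
      rw [e1, e1, norm_mul, norm_mul]
      change ‖y ()‖ * ‖q.eval z‖ * ‖x ()‖ ≤ s * ‖x ()‖ * ‖y ()‖
      have h5 := hq z hz.le
      have h6 : ‖y ()‖ * ‖q.eval z‖ * ‖x ()‖ = ‖q.eval z‖ * (‖x ()‖ * ‖y ()‖) := by ring
      rw [h6, mul_assoc]
      exact mul_le_mul_of_nonneg_right h5 (by positivity))
    (fun _ => WithLp.ofLp v) (fun _ => star w)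
  simp only [Finset.univ_unique, Finset.sum_singleton] at key
  rw [← hw] at key
  have e2 : dotProduct (star w) w = ((PB.sq w : ℝ) : ℂ) := by
    unfold PB.sq
    rw [dotProduct, Complex.ofReal_sum]
    refine Finset.sum_congr rfl fun i _ => ?_
    rw [Pi.star_apply, Complex.star_def, Complex.conj_mul']
    push_cast
    rfl
  have e3 : PB.sq (star w) = PB.sq w := PB.F2_sq_star w
  rw [e2, e3, ← hn, Complex.norm_real, sq_ofLp, Real.sqrt_sq (norm_nonneg _),
    Real.sqrt_sq (norm_nonneg _), Real.norm_of_nonneg (by positivity)] at key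
  rcases eq_or_lt_of_le (norm_nonneg (aeval T q v)) with h0 | h0
  · rw [← h0]
    positivity
  · have h7 : ‖aeval T q v‖ * ‖aeval T q v‖ ≤ (s * ‖v‖) * ‖aeval T q v‖ := by
      calc ‖aeval T q v‖ * ‖aeval T q v‖ = ‖aeval T q v‖ ^ 2 := by ring
        _ ≤ _ := key
    exact le_of_mul_le_mul_right h7 h0

end Pool.Agent.Helper69.SIM
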